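import Pool.Agent.H.MP_e5892f_al.Defs

set_option autoImplicit false

namespace Pool.Agent.H.MP_e5892f_al

open MeasureTheory Filter Topology

section
variable {S G : Type} [Group G] (π : S → G)

def gam (ξ : ℕ → S) : ℕ → G
  | 0 => 1
  | n + 1 => π (ξ n) * gam ξ n

theorem gam_congr {ξ η : ℕ → S} {n : ℕ} (h : ∀ i < n, ξ i = η i) : gam π ξ n = gam π η n := by
  induction n with
  | zero => rfl
  | succ n ih => rw [gam, gam, h n (by omega), ih fun i a => h i (by omega)]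

theorem gam_per {ξ : ℕ → S} {m p : ℕ} {g : G} (h : ∀ n, m ≤ n → ξ (n + p) = ξ n) (e : gam π ξ (m + p) = gam π ξ m * g) (n : ℕ)
    (a : m ≤ n) : gam π ξ (n + p) = gam π ξ n * g := by
  induction n, a using Nat.le_induction with
  | base => exact e
  | succ n a ih => rw [Nat.add_right_comm, gam, gam, ih, h n a, mul_assoc]

structure Rep (ι : S → S) (g : G) (ξ : ℕ → S) (m p : ℕ) : Prop where
  pos : 0 < p
  red : ∀ n, ξ (n + 1) ≠ ι (ξ n)
  per : ∀ n, m ≤ n → ξ (n + p) = ξ n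
  eq : gam π ξ (m + p) = gam π ξ m * g

theorem Rep.pow {ι : S → S} {g : G} {ξ : ℕ → S} {m p : ℕ} (h : Rep π ι g ξ m p) (n : ℕ) (a : m ≤ n) (k : ℕ) :
    gam π ξ (n + k * p) = gam π ξ n * g ^ k := by
  induction k with
  | zero => simp
  | succ k ih => rw [add_mul, one_mul, ← add_assoc, gam_per π h.per h.eq _ (by omega), ih, pow_succ, mul_assoc]

theorem word (ι : S → S) (hι : ∀ s, π (ι s) = (π s)⁻¹) (g : G) (p m : ℕ) (ξ : ℕ → S) (e : gam π ξ (m + p) = gam π ξ m * g) :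
    g * g = 1 ∨ ∃ ξ m p, Rep π ι g ξ m p ∧ ∀ n, m = n + 1 → ξ n ≠ ξ (n + p) := by
  induction p using Nat.strong_induction_on generalizing m ξ with | _ p ip => ?_
  induction m using Nat.strong_induction_on generalizing ξ with | _ m im => ?_
  rcases p.eq_zero_or_pos with rfl | hp
  · exact .inl (by simp_all)
  obtain ⟨η, h, f⟩ : ∃ η : ℕ → S, (∀ n, m ≤ n → η (n + p) = η n) ∧ gam π η (m + p) = gam π η m * g := by
    have k : ∀ n ≤ m + p, gam π (fun n => if n < m then ξ n else ξ (m + (n - m) % p)) n = gam π ξ n := fun n a =>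
      gam_congr π fun i b => by
        split_ifs
        · rfl
        · rw [Nat.mod_eq_of_lt (by omega)]; congr 1; omega
    refine ⟨_, fun n a => ?_, by rw [k _ le_rfl, k _ (by omega), e]⟩
    rw [if_neg (by omega), if_neg (by omega), show n + p - m = n - m + p by omega, Nat.add_mod_right]
  have t := gam_per π h f
  by_cases r : ∀ n, η (n + 1) ≠ ι (η n)
  · by_cases s : ∀ n, m = n + 1 → η n ≠ η (n + p)
    · exact .inr ⟨η, m, p, ⟨hp, r, h, f⟩, s⟩
    push Not at s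
    obtain ⟨n, rfl, s⟩ := s
    rw [Nat.add_right_comm, gam, gam, ← s, mul_assoc] at f
    exact im n (by omega) η (mul_left_cancel f)
  push Not at r
  obtain ⟨i, r⟩ := r
  by_cases s : i < m
  · have k : ∀ n, i ≤ n → gam π (fun n => if n < i then η n else η (n + 2)) n = gam π η (n + 2) := fun n a => by
      induction n, a using Nat.le_induction with
      | base => rw [gam, gam, r, hι, inv_mul_cancel_left]; exact gam_congr π fun j b => if_pos b
      | succ n a ih => rw [gam, ih, if_neg (by omega)]; rfl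
    refine im (m - 1) (by omega) (fun n => if n < i then η n else η (n + 2)) ?_
    rw [k _ (by omega), k _ (by omega), Nat.add_right_comm, t _ (by omega)]
  have a := t (i + 1) (by omega)
  rw [Nat.add_right_comm, gam, h i (by omega)] at a
  rcases Nat.lt_or_ge 1 p with c | c
  · refine ip (p - 2) (by omega) (i + 2) η ?_
    rw [show i + 2 + (p - 2) = i + p by omega, gam, r, hι, mul_assoc, ← a, inv_mul_cancel_left]
  · obtain rfl : p = 1 := by omega
    have b := hι (η i)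
    rw [← r, h i (by omega)] at b
    rw [(eq_inv_mul_of_mul_eq a.symm : g = _)]
    left
    rw [mul_assoc, mul_assoc, mul_inv_cancel_left, ← mul_assoc (π _), eq_inv_iff_mul_eq_one.1 b, one_mul, inv_mul_cancel]

theorem mem_gam [Nonempty S] (ι : S → S) (hι : ∀ s, π (ι s) = (π s)⁻¹) {g : G} (h : g ∈ Subgroup.closure (Set.range π)) :
    ∃ ξ n, g = gam π ξ n := by
  have k : ∀ (s : S) ξ n, ∃ η m, π s * gam π ξ n = gam π η m := fun s ξ n =>
    ⟨Function.update ξ n s, n + 1, by rw [gam, Function.update_self, gam_congr π (ξ := Function.update ξ n s) (η := ξ) fun i a => Function.update_of_ne a.ne _ _]⟩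
  induction h using Subgroup.closure_induction_left with
  | one => exact ⟨fun _ => Classical.arbitrary S, 0, rfl⟩
  | mul_left x a y _ b => obtain ⟨s, rfl⟩ := a; obtain ⟨ξ, n, rfl⟩ := b; exact k s ξ n
  | inv_mul_cancel x a y _ b => obtain ⟨s, rfl⟩ := a; obtain ⟨ξ, n, rfl⟩ := b; rw [← hι]; exact k _ ξ n
end

variable {X Y S : Type} [TopologicalSpace X] [TopologicalSpace Y]

structure PP (f : X ≃ₜ X) (U V : Set X) : Prop where
  oU : IsOpen U
  oV : IsOpen V
  dj : ∀ x ∈ U, x ∉ V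
  mp : ∀ x ∉ U, f x ∈ V

theorem PP.symm {f : X ≃ₜ X} {U V : Set X} (h : PP f U V) : PP f⁻¹ V U :=
  ⟨h.oV, h.oU, fun x a b => h.dj x b a, fun x a => by_contra fun b => a (by simpa using h.mp _ b)⟩

theorem PP.fwd {f : X ≃ₜ X} {U V : Set X} (h : PP f U V) {x : X} (a : x ∉ U) (k : ℕ) (b : 0 < k) : (f ^ k) x ∈ V := by
  induction k, b using Nat.le_induction with
  | base => simpa using h.mp x a
  | succ k _ ih => rw [pow_succ']; exact h.mp _ fun c => h.dj _ c ih

theorem PP.per {f : X ≃ₜ X} {U V : Set X} (h : PP f U V) {x : X} {k : ℕ} (b : 0 < k) (e : (f ^ k) x = x) : x ∈ U ∪ V :=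
  or_iff_not_imp_left.2 fun a => e ▸ h.fwd a k b

theorem PP.lim {f : X ≃ₜ X} {U V : Set X} (h : PP f U V) {x P : X} (t : Tendsto (fun k : ℕ => (f ^ k) x) atTop (𝓝 P)) (a : P ∈ U) :
    x ∈ U := by_contra fun b => by
  obtain ⟨k, c, d⟩ := ((t.eventually (h.oU.mem_nhds a)).and (eventually_gt_atTop 0)).exists
  exact h.dj _ c (h.fwd b k d)

theorem PP.fix [T2Space X] {f : X ≃ₜ X} {U V : Set X} (h : PP f U V) {x P : X} (t : Tendsto (fun k : ℕ => (f ^ k) x) atTop (𝓝 P)) : P ∈ U ∪ V := by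
  refine h.per one_pos (tendsto_nhds_unique ((f.continuous.tendsto P).comp t) (((tendsto_add_atTop_iff_nat 1).2 t).congr fun k => ?_))
  rw [pow_succ']; rfl

theorem PingPong.pp {g h : X ≃ₜ X} (p : PingPong g h) :
    ∃ U V U' V', PP g U V ∧ PP h U' V' ∧ ∀ x ∈ U ∪ V, x ∉ U' ∪ V' := by
  obtain ⟨U, U', V, V', a, b, c, d, e1, e2, e3, e4, e5, e6, f1, f2⟩ := p
  simp only [Set.disjoint_left] at e1 e2 e3 e4 e5 e6
  exact ⟨U, V, U', V', ⟨a, c, e2, fun x k => f1 ⟨x, k, rfl⟩⟩, ⟨b, d, e5, fun x k => f2 ⟨x, k, rfl⟩⟩,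
    fun x k l => k.elim (fun k => l.elim (e1 k) (e3 k)) fun k => l.elim (e4 · k) (e6 k)⟩

structure Bad (ι : S → S) (π : S → X ≃ₜ X) : Prop where
  inv : ∀ s, π (ι s) = (π s)⁻¹
  cert : ∃ (T : Finset S) (A B : S → Set X), (∀ s, IsOpen (A s) ∧ IsOpen (B s) ∧ ∀ x ∈ A s, π s x ∈ B s) ∧
    (∀ s ∈ T, ∀ t ∈ T, ∀ x ∈ B s, x ∈ B t → s = t) ∧ ∀ x, ∃ s ∈ T, ∃ t ∈ T, s ≠ t ∧ x ∈ A s ∧ x ∈ A t
  npp : ∀ ξ n η m, ¬ PingPong (gam π ξ n) (gam π η m)

theorem Bad.lift {ι : S → S} {π : S → X ≃ₜ X} (h : Bad ι π) (π' : S → Y ≃ₜ Y) (i : ∀ s, π' (ι s) = (π' s)⁻¹) (e : X → Y) (q : Y → X)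
    (ce : Continuous e) (cq : Continuous q) (he : ∀ s x, π' s (e x) = e (π s x)) (hq : ∀ s y, q (π' s y) = π s (q y)) : Bad ι π' := by
  obtain ⟨T, A, B, a, b, c⟩ := h.cert
  have k : ∀ ξ n x, gam π' ξ n (e x) = e (gam π ξ n x) := fun ξ n x => by
    induction n with
    | zero => rfl
    | succ n ih => simp [gam, ih, he]
  refine ⟨i, ⟨T, fun s => q ⁻¹' A s, fun s => q ⁻¹' B s, fun s => ⟨(a s).1.preimage cq, (a s).2.1.preimage cq, fun y d => ?_⟩,
    fun s d t f y => b s d t f _, fun y => c _⟩, fun ξ n η m ⟨U, U', V, V', a, b, c, d, e1, e2, e3, e4, e5, e6, f1, f2⟩ => h.npp ξ n η m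
    ⟨_, _, _, _, a.preimage ce, b.preimage ce, c.preimage ce, d.preimage ce, e1.preimage e, e2.preimage e, e3.preimage e,
      e4.preimage e, e5.preimage e, e6.preimage e, ?_, ?_⟩⟩
  · simpa [hq] using (a s).2.2 _ d
  · rintro _ ⟨x, l, rfl⟩; exact f1 ⟨_, l, k ..⟩
  · rintro _ ⟨x, l, rfl⟩; exact f2 ⟨_, l, k ..⟩

theorem Bad.not [Nonempty S] {ι : S → S} {π : S → X ≃ₜ X} (h : Bad ι π) {G : Subgroup (X ≃ₜ X)} (m : ∀ s, π s ∈ G) : ¬ DynTits G := by
  intro t
  rcases t (.closure (Set.range π)) ((Subgroup.closure_le _).2 (Set.range_subset_iff.2 m)) with ⟨μ, a, -, b⟩ | ⟨f, a, g, b, c⟩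
  · let := borel X
    have : BorelSpace X := ⟨rfl⟩
    obtain ⟨T, A, B, c, d, e⟩ := h.cert
    have k : ∀ s, μ (A s) ≤ μ (B s) := fun s => by
      rw [← congrArg (· (B s)) (b (π s) (Subgroup.subset_closure ⟨s, rfl⟩))]
      rw [Measure.map_apply (π s).continuous.measurable (c s).2.1.measurableSet]
      exact measure_mono (c s).2.2
    have : (2 : ENNReal) ≤ 1 := calc
      (2 : ENNReal) = ∫⁻ _, 2 ∂μ := by simp
      _ ≤ ∫⁻ x, ∑ s ∈ T, (A s).indicator 1 x ∂μ := lintegral_mono fun x => by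
        classical
        obtain ⟨s, a1, t, a2, a3, a4, a5⟩ := e x
        refine le_trans ?_ (Finset.sum_le_sum_of_subset (s := {s, t}) (by simp [Finset.insert_subset_iff, *]))
        simp [a3, a4, a5, one_add_one_eq_two]
      _ = ∑ s ∈ T, μ (A s) := by
        rw [lintegral_finsetSum _ fun s _ => measurable_one.indicator (c s).1.measurableSet]
        exact Finset.sum_congr rfl fun s _ => lintegral_indicator_one (c s).1.measurableSet
      _ ≤ ∑ s ∈ T, μ (B s) := Finset.sum_le_sum fun s _ => k s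
      _ = μ (⋃ s ∈ T, B s) := (measure_biUnion_finset (fun s a t b n => Set.disjoint_left.2 fun x p q => n (d s a t b x p q))
        fun s _ => (c s).2.1.measurableSet).symm
      _ ≤ 1 := prob_le_one
    norm_num at this
  · obtain ⟨ξ, n, rfl⟩ := mem_gam π ι h.inv a
    obtain ⟨η, m, rfl⟩ := mem_gam π ι h.inv b
    exact h.npp _ _ _ _ c

end Pool.Agent.H.MP_e5892f_al
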