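import Pool.Agent.H.MP_e5892f_al.A

set_option autoImplicit false

namespace Pool.Agent.H.MP_e5892f_al

open Filter Topology

section
variable {A : Type}

theorem rat_of {Q : Type} [Finite Q] (f : (ℕ → A) → ℕ → A) (q : (ℕ → A) → ℕ → Q) (l : (ℕ → A) → ℕ → ℕ) (q0 : Q)
    (h0 : ∀ x, q x 0 = q0 ∧ l x 0 = 0) (hu : ∀ x m, ∃ n, m ≤ l x n)
    (hd : ∀ x y n m, q x n = q y m → x n = y m → q x (n + 1) = q y (m + 1) ∧ ∃ d, l x (n + 1) = l x n + d ∧ l y (m + 1) = l y m + d ∧
      ∀ i < d, f x (l x n + i) = f y (l y m + i)) : Rational f := by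
  classical
  have k : ∀ s a, ∃ (t : Q) (w : List A), ∀ x n, q x n = s → x n = a → q x (n + 1) = t ∧
      (List.range (l x (n + 1))).map (f x) = (List.range (l x n)).map (f x) ++ w := fun s a => by
    by_cases e : ∃ y m, q y m = s ∧ y m = a
    · obtain ⟨y, m, rfl, rfl⟩ := e
      refine ⟨q y (m + 1), (List.range (l y (m + 1) - l y m)).map fun i => f y (l y m + i), fun x n b c => ?_⟩
      obtain ⟨e, d, e1, e2, e3⟩ := hd x y n m b c
      refine ⟨e, ?_⟩
      rw [e1, e2, Nat.add_sub_cancel_left, List.range_add, List.map_append, List.map_map]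
      congr 1
      exact List.map_congr_left fun i j => e3 i (List.mem_range.1 j)
    · exact ⟨s, [], fun x n b c => (e ⟨x, n, b, c⟩).elim⟩
  choose δ o k using k
  have r : ∀ x n, run δ o q0 x n = (q x n, (List.range (l x n)).map (f x)) := fun x n => by
    induction n with
    | zero => simp [run, h0]
    | succ n ih => rw [run, ih, (k _ _ x n rfl rfl).1, (k _ _ x n rfl rfl).2]
  refine ⟨Q, inferInstance, δ, o, q0, fun x => ⟨fun n i a e => ?_, fun m => by simpa [r] using hu x m⟩⟩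
  rw [r] at e
  simp only [List.getElem?_map, Option.map_eq_some_iff, List.getElem?_eq_some_iff, List.getElem_range] at e
  obtain ⟨_, ⟨-, rfl⟩, e⟩ := e
  exact e

def Sy (f : (ℕ → A) → ℕ → A) : Prop := ∃ (K : ℕ) (b : (ℕ → A) → ℕ), 0 < K ∧
  (∀ x y, (∀ i < K, x i = y i) → b x = b y ∧ ∀ i < b x, f x i = f y i) ∧
  ∀ x y m n, (∀ i ≤ K, x (m + i) = y (n + i)) → f x (b x + m) = f y (b y + n)

theorem Sy.rat [Finite A] {f : (ℕ → A) → ℕ → A} (h : Sy f) : Rational f := by
  obtain ⟨K, b, h0, h1, h2⟩ := h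
  refine rat_of (Q := Fin (K + 1) × (Fin K → Option A)) f (fun x n => (⟨min n K, by omega⟩, fun i => if K ≤ n + i then some (x (n + i - K)) else none))
    (fun x n => if n < K then 0 else b x + (n - K)) (0, fun _ => none) (fun x => ⟨by simp [funext_iff], by simp [h0]⟩)
    (fun x m => ⟨m + K, by rw [if_neg (by omega)]; omega⟩) fun x y n m e c => ?_
  simp only [Prod.mk.injEq, Fin.mk.injEq, funext_iff] at e ⊢
  have w : ∀ i ≤ K, K ≤ n + i → x (n + i - K) = y (m + i - K) := fun i a d => by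
    rcases a.eq_or_lt with rfl | a
    · simpa using c
    · simpa [d, show K ≤ m + i by omega] using e.2 ⟨i, a⟩
  refine ⟨⟨by omega, fun i => ?_⟩, ?_⟩
  · by_cases d : K ≤ n + 1 + i
    · rw [if_pos d, if_pos (by omega), add_assoc, add_assoc, w _ (by omega) (by omega)]
    · rw [if_neg d, if_neg (by omega)]
  rcases lt_trichotomy (n + 1) K with d | d | d
  · exact ⟨0, by rw [if_pos d, if_pos (by omega)], by rw [if_pos (by omega), if_pos (by omega)], by simp⟩
  · have := h1 x y fun i a => by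
      have := w (i + 1) (by omega) (by omega)
      rwa [show n + (i + 1) - K = i by omega, show m + (i + 1) - K = i by omega] at this
    rw [if_neg (by omega), if_pos (by omega), if_neg (by omega), if_pos (by omega)]
    exact ⟨b x, by omega, by omega, by simpa using this.2⟩
  · rw [if_neg (by omega), if_neg (by omega), if_neg (by omega), if_neg (by omega)]
    refine ⟨1, by omega, by omega, fun i a => ?_⟩
    obtain rfl : i = 0 := by omega
    exact h2 x y _ _ fun i a => by
      have := w i a (by omega)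
      rwa [show n + i - K = n - K + i by omega, show m + i - K = m - K + i by omega] at this

variable [TopologicalSpace A] [DiscreteTopology A]

theorem ev_agree (x : ℕ → A) (K : ℕ) : ∀ᶠ y in 𝓝 x, ∀ i < K, y i = x i :=
  (eventually_all_finite (Set.finite_lt_nat K)).2 fun i _ => ((continuous_apply i).tendsto x).eventually (p := (· = x i)) (by simp)

theorem Sy.cont {f : (ℕ → A) → ℕ → A} (h : Sy f) : Continuous f := by
  obtain ⟨K, b, -, h1, h2⟩ := h
  refine continuous_pi fun n => continuous_iff_continuousAt.2 fun x => tendsto_const_nhds.congr' ((ev_agree x (n + K + 1)).mono fun y e => ?_)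
  have := h1 y x fun i a => e i (by omega)
  by_cases a : n < b y
  · exact (this.2 n a).symm
  · have k := h2 y x (n - b y) (n - b y) fun i a => e _ (by omega)
    rw [← this.1, Nat.add_sub_cancel' (by omega)] at k
    exact k.symm

end

variable {d k : ℕ}

theorem mem_V {f : (Fin k × (ℕ → Fin d)) ≃ₜ (Fin k × (ℕ → Fin d))} :
    f ∈ V d k ↔ ∀ x, ∃ a b, ∀ᶠ y in 𝓝 x, ∀ i, (f y).2 (b + i) = y.2 (a + i) := by
  refine forall_congr' fun x => ⟨fun ⟨a, b, r, w, h⟩ => ⟨a, b, ?_⟩, fun ⟨a, b, h⟩ => ?_⟩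
  · exact ((continuous_fst.continuousAt.eventually (p := (· = x.1)) (by simp)).and
      (continuous_snd.continuousAt.eventually (ev_agree x.2 a))).mono fun y e => (h y e.1 e.2).2.2
  · have := (h.and (f.continuous.fst.continuousAt.eventually (p := (· = (f x).1)) (by simp))).and
      (f.continuous.snd.continuousAt.eventually (ev_agree (f x).2 b))
    obtain ⟨u, hu, v, hv, e⟩ := mem_nhds_prod_iff.1 this
    obtain ⟨_, ⟨z, n, rfl⟩, e1, e2⟩ := (PiNat.isTopologicalBasis_cylinders fun _ => Fin d).mem_nhds_iff.1 hv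
    refine ⟨a + n, b + n, (f x).1, (f x).2, fun y e3 e4 => ?_⟩
    have t : y ∈ u ×ˢ v := ⟨e3 ▸ mem_of_mem_nhds hu, e2 fun i j => (e4 i (by omega)).trans (e1 i j)⟩
    have t := e t
    refine ⟨t.1.2, fun i j => ?_, fun i => by rw [add_assoc, add_assoc, t.1.1]⟩
    by_cases c : i < b
    · exact t.2 i c
    · obtain ⟨i, rfl⟩ := Nat.exists_eq_add_of_le (not_lt.1 c)
      rw [t.1.1, h.self_of_nhds, e4 _ (by omega)]

def up (k : ℕ) (f : (ℕ → Fin d) ≃ₜ (ℕ → Fin d)) : (Fin k × (ℕ → Fin d)) ≃ₜ (Fin k × (ℕ → Fin d)) := (Homeomorph.refl _).prodCongr f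

theorem Sy.conj {φ : (ℕ → Fin d) ≃ₜ (ℕ → Fin d)} (h : Sy φ) {f} (m : f ∈ V d k) : up k φ * f * (up k φ)⁻¹ ∈ V d k := by
  obtain ⟨K, b, -, h1, h2⟩ := h
  rw [mem_V] at m ⊢
  intro x
  obtain ⟨x, rfl⟩ := (up k φ).surjective x
  obtain ⟨a, c, e⟩ := m x
  refine ⟨b x.2 + a, b (f x).2 + c, ?_⟩
  rw [← (up k φ).map_nhds_eq, eventually_map]
  filter_upwards [e, continuous_snd.continuousAt.eventually (ev_agree x.2 K), f.continuous.snd.continuousAt.eventually (ev_agree (f x).2 K)]
    with y e1 e2 e3 i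
  rw [← (h1 _ _ e2).1, ← (h1 _ _ e3).1, add_assoc, add_assoc]
  rw [show (up k φ * f * (up k φ)⁻¹) (up k φ y) = up k φ (f y) by simp]
  exact h2 (f y).2 y.2 (c + i) (a + i) fun j _ => by rw [add_assoc, add_assoc, e1]

theorem up_mem {φ : (ℕ → Fin d) ≃ₜ (ℕ → Fin d)} (h : Sy φ) (h' : Sy (φ⁻¹ :)) : up k φ ∈ AutV d k := fun f =>
  ⟨h.conj, fun m => by simpa [show up k φ⁻¹ = (up k φ)⁻¹ from rfl, mul_assoc] using h'.conj m⟩

end Pool.Agent.H.MP_e5892f_al
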