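import Pool.Agent.H.MP_e5892f_al.B

set_option autoImplicit false

namespace Pool.Agent.H.MP_e5892f_al

abbrev F := ZMod 23
abbrev D := F × F
abbrev L11 := Fin 11 × Bool
instance : Fact (Nat.Prime 23) := ⟨by norm_num⟩

def io (s : L11) : L11 := (s.1, !s.2)
def lam (s : L11) : F := if s.2 then s.1.val else s.1.val + 11
def aa (s : L11) (y : D) : F := y.1 + lam s * y.2 + lam s ^ 2
def sol (s t : L11) (α β : F) : D :=
  (α - lam s * ((α - β - lam s ^ 2 + lam t ^ 2) / (lam s - lam t)) - lam s ^ 2, (α - β - lam s ^ 2 + lam t ^ 2) / (lam s - lam t))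

theorem io_io (s : L11) : io (io s) = s := by simp [io]
theorem io_ne (s : L11) : s ≠ io s := by simp [io, Prod.ext_iff]
theorem lam_ne {s t : L11} (h : s ≠ t) : lam s - lam t ≠ 0 := by revert s t; decide +kernel
theorem aa1 (s t : L11) (α β : F) : aa s (sol s t α β) = α := by simp only [aa, sol]; ring
theorem aa2 {s t : L11} (h : s ≠ t) (α β : F) : aa t (sol s t α β) = β := by
  have := lam_ne h
  simp only [aa, sol]; field_simp; ring
theorem aa_ext {s t : L11} (h : s ≠ t) {y z : D} (a : aa s y = aa s z) (b : aa t y = aa t z) : y = z := by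
  have e : y.2 = z.2 := mul_left_cancel₀ (lam_ne h) (by unfold aa at a b; linear_combination a - b)
  exact Prod.ext (by unfold aa at a; rw [e] at a; linear_combination a) e
theorem roots (y : D) : (Finset.univ.filter fun k : Fin 11 => aa (k, true) y = 0).card ≤ 2 := by revert y; decide +kernel

attribute [irreducible] aa sol

def Rl (s : L11) (y : ℤ → D) (n : ℤ) : D := sol s (io s) (aa s (y (n - 1))) (aa (io s) (y (n + 1)))

theorem Rl_inv (s : L11) (y : ℤ → D) : Rl (io s) (Rl s y) = y := funext fun n =>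
  aa_ext (io_ne s) (by simp [Rl, io_io, aa1, aa2 (io_ne s).symm]) (by simp [Rl, io_io, aa1, aa2 (io_ne s)])

def Rp (s : L11) : Equiv.Perm (ℤ → D) := ⟨Rl s, Rl (io s), Rl_inv s, fun y => by simpa [io_io] using Rl_inv (io s) y⟩

theorem Rp_sh (ξ : ℕ → L11) (n : ℕ) (y : ℤ → D) (q : ℤ) : gam Rp ξ n (fun i => y (i + q)) = fun i => gam Rp ξ n y (i + q) := by
  induction n with
  | zero => rfl
  | succ n ih => funext i; simp [gam, ih, Rp, Rl, add_right_comm, sub_add_eq_add_sub]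

theorem diag (ξ : ℕ → L11) (p : ℕ) (hp : 0 < p) (per : ∀ n, ξ (n + p) = ξ n) (red : ∀ n, ξ (n + 1) ≠ io (ξ n)) :
    ∃ (y : ℤ → D) (q : ℕ), 0 < q ∧ (∀ i, y (i + q) = y i) ∧
      ∀ n, aa (ξ n) (gam Rp ξ (n + 1) y 0) = 0 ∧ aa (io (ξ n)) (gam Rp ξ n y 0) = 0 := by
  have : NeZero p := ⟨hp.ne'⟩
  let δ : ZMod p → L11 := fun j => ξ j.val
  have d : ∀ n : ℕ, δ n = ξ n := fun n => by
    simp only [δ, ZMod.val_natCast]
    exact Function.Periodic.map_mod_nat per n
  have r : ∀ j, δ (j - 1) ≠ io (δ j) := fun j e => by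
    obtain ⟨j, rfl⟩ : ∃ i, j = i + 1 := ⟨j - 1, by ring⟩
    rw [← ZMod.natCast_zmod_val j, add_sub_cancel_right, ← Nat.cast_succ, d, d] at e
    exact red _ (by rw [e, io_io])
  let Ψ : (ZMod p → D) → ZMod p → D := fun c j => sol (δ (j - 1)) (io (δ j)) (aa (δ (j - 1)) (c (j - 1))) (aa (io (δ j)) (c (j + 1)))
  have p1 : ∀ c j, aa (δ j) (Ψ c (j + 1)) = aa (δ j) (c j) := fun c j => by simp [Ψ, aa1]
  have p2 : ∀ c j, aa (io (δ j)) (Ψ c j) = aa (io (δ j)) (c (j + 1)) := fun c j => aa2 (r j) _ _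
  have inj : Function.Injective Ψ := fun c c' e => funext fun j =>
    aa_ext (s := δ j) (t := io (δ (j - 1))) (fun k => r j (by rw [k, io_io])) (by rw [← p1, e, p1])
      (by simpa [e, p2] using (p2 c (j - 1)).symm)
  let P := Equiv.ofBijective Ψ inj.bijective_of_finite
  let c : ZMod p → D := fun j => sol (δ (j - 1)) (io (δ j)) 0 0
  have u : ∀ i : ℤ, (P ^ (i + 1)) c = Ψ ((P ^ i) c) := fun i => by rw [add_comm, zpow_one_add]; rfl
  have k : ∀ n : ℕ, gam Rp ξ n (fun i => (P ^ i) c 0) = fun i => (P ^ i) c n := fun n => by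
    induction n with
    | zero => simp [gam]
    | succ n ih =>
      funext i
      rw [gam, Equiv.Perm.mul_apply, ih, Nat.cast_succ, ← d]
      refine aa_ext (io_ne (δ n)) ((aa1 ..).trans ?_) ((aa2 (io_ne _) ..).trans ?_)
      · rw [← p1, ← u, sub_add_cancel]
      · rw [← p2, ← u]
  refine ⟨fun i => (P ^ i) c 0, orderOf P, orderOf_pos P, fun i => by simp [zpow_add, pow_orderOf_eq_one], fun n => ?_⟩
  rw [k, k, ← d]
  exact ⟨by simp [c, aa1], aa2 (r _) _ _⟩

abbrev Cell := Fin 4 → Bool → D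

theorem ex_code {A : Type} (a0 a1 : A) (h : a0 ≠ a1) : ∃ (L : ℕ) (code : Cell → ℕ → A), 0 < L ∧ (∀ c, code c 0 = a0) ∧
    (∀ c c', (∀ i < L, code c i = code c' i) → c = c') ∧
    (∀ c c' i, 0 < i → i < L → code c i = code c' 0 → i + 1 < L ∧ code c (i + 1) ≠ code c' 1) ∧
    ∀ c c' i, i < L → code c i ≠ code c' i → 0 < i ∧ i + 1 < L ∧ code c (i - 1) = a1 ∧ code c (i + 1) = a1 := by
  obtain ⟨M, ⟨e⟩⟩ := Finite.exists_equiv_fin Cell
  refine ⟨2 * M + 3, fun c i => if i < 2 then a0 else if i % 2 = 0 ∨ i = 2 * e c + 3 then a1 else a0, by omega, by simp, fun c c' k => ?_,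
    fun c c' i a b => ?_, fun c c' i a => ?_⟩
  · have := k (2 * e c + 3) (by omega)
    simpa [h.symm, Fin.val_inj] using this
  · have := h.symm
    grind
  · grind

end Pool.Agent.H.MP_e5892f_al
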