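import Mathlib

set_option autoImplicit false

namespace Pool.Agent.H.MP_e5892f_al

open MeasureTheory

/-- `g, h` form a ping-pong pair. -/
def PingPong {X : Type} [TopologicalSpace X] (g h : X ≃ₜ X) : Prop :=
  ∃ U₁ U₂ V₁ V₂ : Set X, IsOpen U₁ ∧ IsOpen U₂ ∧ IsOpen V₁ ∧ IsOpen V₂ ∧
    Disjoint U₁ U₂ ∧ Disjoint U₁ V₁ ∧ Disjoint U₁ V₂ ∧ Disjoint U₂ V₁ ∧ Disjoint U₂ V₂ ∧ Disjoint V₁ V₂ ∧
    g '' U₁ᶜ ⊆ V₁ ∧ h '' U₂ᶜ ⊆ V₂

/-- The action of `G` on `X` satisfies the dynamical Tits alternative. -/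
def DynTits {X : Type} [TopologicalSpace X] (G : Subgroup (X ≃ₜ X)) : Prop :=
  ∀ H ≤ G, (letI := borel X; ∃ μ : Measure X, IsProbabilityMeasure μ ∧ μ.Regular ∧ ∀ h ∈ H, μ.map h = μ) ∨
    ∃ g ∈ H, ∃ h ∈ H, PingPong g h

/-- State and output word of a transducer started in `q` after reading `n` letters of `x`. -/
def run {Q A : Type} (δ : Q → A → Q) (o : Q → A → List A) (q : Q) (x : ℕ → A) : ℕ → Q × List A
  | 0 => (q, [])
  | n + 1 => (δ (run δ o q x n).1 (x n), (run δ o q x n).2 ++ o (run δ o q x n).1 (x n))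

/-- `f` is computed by a finite-state asynchronous transducer. -/
def Rational {A : Type} (f : (ℕ → A) → ℕ → A) : Prop :=
  ∃ (Q : Type) (_ : Finite Q) (δ : Q → A → Q) (o : Q → A → List A) (q : Q), ∀ x : ℕ → A,
    (∀ n i a, (run δ o q x n).2[i]? = some a → f x i = a) ∧ ∀ m, ∃ n, m ≤ (run δ o q x n).2.length

/-- The rational group `R_A`. -/
def RA (A : Type) [TopologicalSpace A] : Subgroup ((ℕ → A) ≃ₜ (ℕ → A)) := Subgroup.closure {f | Rational f}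

/-- The Brin-Thompson group `nV`. -/
def nV (n : ℕ) : Subgroup ((Fin n → ℕ → Bool) ≃ₜ (Fin n → ℕ → Bool)) :=
  Subgroup.closure {f | ∀ x : Fin n → ℕ → Bool, ∃ (a b : Fin n → ℕ) (w : Fin n → ℕ → Bool), ∀ y : Fin n → ℕ → Bool,
    (∀ j, ∀ i < a j, y j i = x j i) → ∀ j, (∀ i < b j, f y j i = w j i) ∧ ∀ i, f y j (b j + i) = y j (a j + i)}

/-- The Higman-Thompson group `V_{d,k}`, as a set of homeomorphisms. -/
def V (d k : ℕ) : Set ((Fin k × (ℕ → Fin d)) ≃ₜ (Fin k × (ℕ → Fin d))) :=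
  {f | ∀ x : Fin k × (ℕ → Fin d), ∃ (a b : ℕ) (r : Fin k) (w : ℕ → Fin d), ∀ y : Fin k × (ℕ → Fin d),
    y.1 = x.1 → (∀ i < a, y.2 i = x.2 i) → (f y).1 = r ∧ (∀ i < b, (f y).2 i = w i) ∧ ∀ i, (f y).2 (b + i) = y.2 (a + i)}

/-- `Aut (V_{d,k})`, acting as the normaliser of `V_{d,k}` in the homeomorphism group. -/
def AutV (d k : ℕ) : Subgroup ((Fin k × (ℕ → Fin d)) ≃ₜ (Fin k × (ℕ → Fin d))) := Subgroup.normalizer (V d k)

end Pool.Agent.H.MP_e5892f_al
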