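import Pool.Agent.H.MP_e5892f_al.C

set_option autoImplicit false

namespace Pool.Agent.H.MP_e5892f_al

open Classical

structure Code (A : Type) where
  a0 : A
  a1 : A
  ne : a0 ≠ a1
  L : ℕ
  code : Cell → ℕ → A
  pos : 0 < L
  c0 : ∀ c, code c 0 = a0
  inj : ∀ c c', (∀ i < L, code c i = code c' i) → c = c'
  nov : ∀ c c' i, 0 < i → i < L → code c i = code c' 0 → i + 1 < L ∧ code c (i + 1) ≠ code c' 1
  pay : ∀ c c' i, i < L → code c i ≠ code c' i → 0 < i ∧ i + 1 < L ∧ code c (i - 1) = a1 ∧ code c (i + 1) = a1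

namespace Code

variable {A : Type} (K : Code A)

def C (x : ℤ → A) (p : ℤ) : Prop := ∃ c, ∀ i < K.L, x (p + i) = K.code c i

noncomputable def val (x : ℤ → A) (p : ℤ) : Cell := if h : K.C x p then h.choose else fun _ _ => 0

theorem val_spec {x : ℤ → A} {p : ℤ} (h : K.C x p) : ∀ i < K.L, x (p + i) = K.code (K.val x p) i := by
  rw [val, dif_pos h]; exact h.choose_spec

theorem val_eq {x : ℤ → A} {p : ℤ} {c : Cell} (h : ∀ i < K.L, x (p + i) = K.code c i) : K.val x p = c :=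
  K.inj _ _ fun i a => (K.val_spec ⟨c, h⟩ i a).symm.trans (h i a)

theorem uniq {x : ℤ → A} {p q : ℤ} {i j : ℕ} (a : K.C x p) (b : K.C x q) (c : i < K.L) (d : j < K.L) (e : p + i = q + j) : p = q := by
  wlog h : p < q generalizing p q i j
  · exact (not_lt.1 h).eq_or_lt.elim Eq.symm fun h => (this b a d c e.symm h).symm
  obtain ⟨c1, a⟩ := a
  obtain ⟨c2, b⟩ := b
  obtain ⟨n, rfl⟩ : ∃ n : ℕ, q = p + n := ⟨(q - p).toNat, by omega⟩
  obtain ⟨k, l⟩ := K.nov c1 c2 n (by omega) (by omega) (by rw [← a n (by omega), ← b 0 K.pos]; simp)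
  exact (l (by rw [← a _ k, ← b 1 (by omega)]; simp [add_assoc])).elim

noncomputable def wr (x : ℤ → A) (f : ℤ → Cell) (n : ℤ) : A :=
  if h : ∃ i < K.L, K.C x (n - i) then K.code (f (n - h.choose)) h.choose else x n

theorem wr_in {x : ℤ → A} {p : ℤ} (h : K.C x p) (f : ℤ → Cell) (i : ℕ) (a : i < K.L) : K.wr x f (p + i) = K.code (f p) i := by
  have e : ∃ j < K.L, K.C x (p + i - j) := ⟨i, a, by simpa using h⟩
  have := K.uniq e.choose_spec.2 h e.choose_spec.1 a (by simp)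
  rw [wr, dif_pos e, this, show e.choose = i by omega]

theorem C_wr (x : ℤ → A) (f : ℤ → Cell) (p : ℤ) : K.C (K.wr x f) p ↔ K.C x p := by
  have k : ∀ p, K.C x p → K.C (K.wr x f) p := fun p h => ⟨_, K.wr_in h f⟩
  refine ⟨fun h => by_contra fun n => n ?_, k p⟩
  obtain ⟨c, e⟩ := id h
  refine ⟨c, fun i a => (dif_neg ?_).symm.trans (e i a)⟩
  rintro ⟨j, b, d⟩
  exact n (K.uniq (k _ d) h b a (by simp) ▸ d)

noncomputable def nv (e : Bool) (x : ℤ → A) (p : ℤ) (r : Fin 4) (b : Bool) : D :=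
  if K.C x (if b = e then p - K.L else p + K.L) then K.val x (if b = e then p - K.L else p + K.L) r b else K.val x p r (!b)

noncomputable def rho (s : L11) (x : ℤ → A) : ℤ → A :=
  K.wr x fun p r b => sol s (io s) (aa s (K.nv true x p r b)) (aa (io s) (K.nv false x p r b))

theorem rho_inv (s : L11) (x : ℤ → A) : K.rho (io s) (K.rho s x) = x := by
  funext n
  have c : ∀ p, K.C (K.rho s x) p ↔ K.C x p := K.C_wr x _
  by_cases h : ∃ i < K.L, K.C x (n - i)
  · obtain ⟨i, a, h⟩ := h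
    obtain ⟨p, rfl⟩ : ∃ p, n = p + i := ⟨n - i, by ring⟩
    rw [add_sub_cancel_right] at h
    rw [rho, K.wr_in ((c p).2 h) _ i a, K.val_spec h i a]
    have v : ∀ q, K.C x q → K.val (K.rho s x) q = _ := fun q h => K.val_eq (K.wr_in h _)
    congr 1
    funext r b
    have a1 := aa1 s (io s)
    have a2 := aa2 (io_ne s)
    rw [io_io]
    refine aa_ext (io_ne s).symm ((aa1 ..).trans ?_) ((aa2 (io_ne s).symm ..).trans ?_) <;> cases b <;>
      by_cases d : K.C x (p - K.L) <;> by_cases e : K.C x (p + K.L) <;> simp [nv, *]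
  · rw [rho, wr, dif_neg (by simpa only [c] using h), rho, wr, dif_neg h]

theorem rho_loc (s : L11) {x y : ℤ → A} {a b : ℤ} (h : ∀ i : ℤ, -2 * K.L ≤ i → i ≤ 2 * K.L → x (a + i) = y (b + i)) :
    K.rho s x a = K.rho s y b := by
  have c : ∀ j : ℤ, -2 * K.L ≤ j → j ≤ K.L → (K.C x (a + j) ↔ K.C y (b + j)) ∧ K.val x (a + j) = K.val y (b + j) := fun j k l => by
    have : K.C x (a + j) ↔ K.C y (b + j) := exists_congr fun c => forall₂_congr fun i m => by
      rw [add_assoc, add_assoc, h _ (by omega) (by omega)]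
    refine ⟨this, ?_⟩
    by_cases e : K.C y (b + j)
    · exact K.val_eq fun i m => by rw [add_assoc, h _ (by omega) (by omega), ← add_assoc, K.val_spec e i m]
    · rw [val, val, dif_neg e, dif_neg (this.not.2 e)]
  by_cases e : ∃ i < K.L, K.C x (a - i)
  · obtain ⟨i, k, e⟩ := e
    have e' := (c (-i) (by omega) (by omega)).1.1 e
    have n : ∀ e r t, K.nv e x (a + -i) r t = K.nv e y (b + -i) r t := fun e r t => by
      by_cases d : t = e <;> simp only [nv, d, if_true, if_false, sub_eq_add_neg, add_assoc, c (-i) (by omega) (by omega),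
        c (-i + -K.L) (by omega) (by omega), c (-i + K.L) (by omega) (by omega)]
    have e1 := K.wr_in e (fun p r b => sol s (io s) (aa s (K.nv true x p r b)) (aa (io s) (K.nv false x p r b))) i k
    have e2 := K.wr_in e' (fun p r b => sol s (io s) (aa s (K.nv true y p r b)) (aa (io s) (K.nv false y p r b))) i k
    simp only [sub_eq_add_neg, neg_add_cancel_right, n] at e1 e2
    exact e1.trans e2.symm
  · rw [rho, rho, wr, wr, dif_neg e, dif_neg fun ⟨i, k, f⟩ => e ⟨i, k, (c (-i) (by omega) (by omega)).1.2 f⟩]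
    simpa using h 0 (by omega) (by omega)

theorem rho_fix (s : L11) (x : ℤ → A) (n : ℤ) (h : x (n - 1) = K.a0 ∨ x (n + 1) = K.a0) : K.rho s x n = x n := by
  by_cases e : ∃ i < K.L, K.C x (n - i)
  · obtain ⟨i, a, e⟩ := e
    obtain ⟨p, rfl⟩ : ∃ p, n = p + i := ⟨n - i, by ring⟩
    rw [add_sub_cancel_right] at e
    rw [rho, K.wr_in e _ i a, K.val_spec e i a]
    by_contra f
    obtain ⟨b, c, d, g⟩ := K.pay _ _ i a (Ne.symm f)
    rw [← K.val_spec e _ (by omega)] at d g
    rw [show p + i - 1 = p + (i - 1 : ℕ) by omega, show p + i + 1 = p + (i + 1 : ℕ) by omega, d, g, or_self] at h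
    exact K.ne h.symm
  · exact dif_neg e

def ext (x : ℕ → A) (n : ℤ) : A := if n < 0 then K.a1 else x n.toNat

theorem ext_nat (x : ℕ → A) (n : ℕ) : K.ext x n = x n := by simp [ext]

theorem C_neg (x : ℕ → A) {p : ℤ} (h : p < 0) : ¬ K.C (K.ext x) p := fun ⟨c, e⟩ => K.ne (by simpa [ext, h, K.c0] using (e 0 K.pos).symm)

noncomputable def ρ (s : L11) (x : ℕ → A) (n : ℕ) : A := K.rho s (K.ext x) n

theorem ρ_inv (s : L11) (x : ℕ → A) : K.ρ (io s) (K.ρ s x) = x := by
  have : K.ext (K.ρ s x) = K.rho s (K.ext x) := funext fun n => by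
    by_cases h : n < 0
    · rw [rho, wr, dif_neg fun ⟨i, _, e⟩ => K.C_neg x (by omega) e, ext, ext, if_pos h, if_pos h]
    · rw [ext, if_neg h, ρ, Int.toNat_of_nonneg (by omega)]
  funext n
  rw [ρ, this, rho_inv, ext_nat]

theorem ρ_sy (s : L11) : Sy (K.ρ s) := by
  refine ⟨4 * K.L, fun _ => 2 * K.L, by have := K.pos; omega, fun x y h => ⟨rfl, fun i a => K.rho_loc s fun j b c => ?_⟩,
    fun x y m n h => K.rho_loc s fun j b c => ?_⟩
  · unfold ext
    split_ifs
    exacts [rfl, h _ (by dsimp only at a; omega)]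
  · obtain ⟨k, rfl⟩ : ∃ k : ℕ, j = k - 2 * K.L := ⟨(j + 2 * K.L).toNat, by omega⟩
    rw [show ((2 * K.L + m : ℕ) : ℤ) + (k - 2 * K.L) = (m + k : ℕ) by omega, show ((2 * K.L + n : ℕ) : ℤ) + (k - 2 * K.L) = (n + k : ℕ) by omega,
      ext_nat, ext_nat, h k (by omega)]

def emb (y : Fin 4 → ℤ → D) (n : ℕ) : A := K.code (fun r b => y r (if b then (n / K.L : ℕ) else -(n / K.L : ℕ) - 1)) (n % K.L)

theorem emb_C (y : Fin 4 → ℤ → D) (k : ℕ) : ∀ i < K.L, K.ext (K.emb y) (k * K.L + i) = K.code (fun r b => y r (if b then k else -k - 1)) i :=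
  fun i a => by
    rw [← Nat.cast_mul, ← Nat.cast_add, ext_nat, emb, Nat.mul_add_mod_of_lt a, mul_comm, Nat.mul_add_div K.pos, Nat.div_eq_of_lt a, add_zero]

theorem ρ_emb (s : L11) (y : Fin 4 → ℤ → D) : K.ρ s (K.emb y) = K.emb fun r => Rl s (y r) := by
  funext n
  have c : ∀ k : ℕ, K.C (K.ext (K.emb y)) (k * K.L) := fun k => ⟨_, K.emb_C y k⟩
  have v := fun k => K.val_eq (K.emb_C y k)
  rw [ρ, emb, ← congrArg Nat.cast (Nat.div_add_mod' n K.L), Nat.cast_add, Nat.cast_mul, rho, K.wr_in (c _) _ _ (Nat.mod_lt _ K.pos)]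
  generalize n / K.L = k
  congr 1
  funext r b
  have c1 := c (k + 1)
  have v1 := v (k + 1)
  rw [Nat.cast_succ, add_mul, one_mul] at c1 v1
  rcases k with _ | k
  · have := K.C_neg (K.emb y) (p := -K.L) (by have := K.pos; omega)
    have v0 := v 0
    simp only [Nat.cast_zero, zero_mul, zero_add] at c1 v1 v0
    cases b <;> simp [nv, Rl, *]
  · have e : ((k + 1 : ℕ) : ℤ) * K.L - K.L = k * K.L := by push_cast; ring
    cases b <;> simp only [nv, Rl, e, c, c1, v, v1, Bool.false_eq_true, Bool.true_eq_false, if_true, if_false] <;> congr 3 <;> push_cast <;> ring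

end Code

end Pool.Agent.H.MP_e5892f_al
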