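import Pool.Agent.H.MP_e5892f_al.E

set_option autoImplicit false

namespace Pool.Agent.H.MP_e5892f_al

open Classical Filter Topology

namespace Code

variable {A : Type} (K : Code A)

def sk (k : Fin 11) (x : ℕ → A) : Prop := ∃ c, (∀ i < K.L, x i = K.code c i) ∧ ∃ r, aa (k, true) (c r false) = 0
def N (k : Fin 11) (i : ℕ) : A := if i < k.val + 2 then K.a0 else K.a1
def P (k : Fin 11) (x : ℕ → A) : Prop := ∀ i < k.val + 3, x (K.L + i) = K.N k i
def ins (k : Fin 11) (x : ℕ → A) (n : ℕ) : A := if n < K.L then x n else if n < K.L + (k.val + 3) then K.N k (n - K.L) else x (n - (k.val + 3))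
def del (k : Fin 11) (x : ℕ → A) (n : ℕ) : A := if n < K.L then x n else x (n + (k.val + 3))
noncomputable def vv (k : Fin 11) (x : ℕ → A) : ℕ → A :=
  if K.sk k x then x else if ¬ K.P k x then K.ins k x else if ¬ K.P k (K.del k x) then K.del k x else x

theorem sk_congr (k : Fin 11) {x y : ℕ → A} (h : ∀ i < K.L, x i = y i) : K.sk k x ↔ K.sk k y :=
  exists_congr fun _ => and_congr_left' (forall₂_congr fun i a => by rw [h i a])

theorem P_congr (k : Fin 11) {x y : ℕ → A} (h : ∀ i < k.val + 3, x (K.L + i) = y (K.L + i)) : K.P k x ↔ K.P k y :=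
  forall₂_congr fun i a => by rw [h i a]

theorem P_ins (k : Fin 11) (x : ℕ → A) : K.P k (K.ins k x) := fun i a => by simp [ins, a]

theorem vv_inv (k : Fin 11) (x : ℕ → A) : K.vv k (K.vv k x) = x := by
  have a := K.sk_congr k (x := K.ins k x) (y := x) fun i a => if_pos a
  have b := K.sk_congr k (x := K.del k x) (y := x) fun i a => if_pos a
  have c : K.del k (K.ins k x) = x := funext fun n => by grind [ins, del]
  have d : K.P k x → K.ins k (K.del k x) = x := fun h => funext fun n => by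
    have := h (n - K.L)
    grind [ins, del]
  have := K.P_ins k x
  grind [vv]

theorem vv_sy (k : Fin 11) : Sy (K.vv k) := by
  let b : (ℕ → A) → ℕ := fun x => K.L + if K.sk k x then 2 * (k.val + 3) else if ¬ K.P k x then 3 * (k.val + 3) else if ¬ K.P k (K.del k x) then k.val + 3 else 2 * (k.val + 3)
  have t : ∀ x m, K.vv k x (b x + m) = x (m + (K.L + 2 * (k.val + 3))) := fun x m => by
    simp only [vv, b]
    split_ifs <;> (try simp only [ins, del]; split_ifs) <;> first | omega | (congr 1; omega)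
  refine ⟨K.L + 2 * (k.val + 3), b, by omega, fun x y h => ?_, fun x y m n h => by rw [t, t, h _ le_rfl]⟩
  have a := K.sk_congr k (x := x) (y := y) fun i a => h i (by omega)
  have c := K.P_congr k (x := x) (y := y) fun i a => h _ (by omega)
  have d := K.P_congr k (x := K.del k x) (y := K.del k y) fun i a => by simp [del, h (K.L + i + (k.val + 3)) (by omega)]
  refine ⟨by simp only [b, a, c, d], fun i j => ?_⟩
  simp only [vv, b, ← a, ← c, ← d] at j ⊢
  split_ifs at j ⊢ <;> (try simp only [ins, del]; split_ifs) <;> first | rfl | exact h _ (by omega)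

theorem P_ρ (s : L11) (k : Fin 11) {x : ℕ → A} (h : K.P k x) : K.P k (K.ρ s x) := fun i a => by
  rw [← h i a, ρ, K.rho_fix, ext_nat]
  rcases i with _ | i
  · exact .inr ((K.ext_nat x (K.L + 1)).trans (by simp [h 1 (by omega), N]))
  · rw [show ((K.L + (i + 1) : ℕ) : ℤ) - 1 = (K.L + i : ℕ) by omega, ext_nat, h i (by omega), N, if_pos (by omega)]
    exact .inl rfl

theorem P_dj {k l : Fin 11} {x : ℕ → A} (a : K.P k x) (b : K.P l x) : k = l := by
  wlog h : k ≤ l generalizing k l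
  · exact (this b a (by omega)).symm
  by_contra n
  have := (a (k.val + 2) (by omega)).symm.trans (b (k.val + 2) (by omega))
  rw [N, N, if_neg (by omega), if_pos (by omega)] at this
  exact K.ne this.symm

theorem two (x : ℕ → A) : ∃ k l, k ≠ l ∧ (¬ K.sk k x ∧ ¬ K.P k x) ∧ ¬ K.sk l x ∧ ¬ K.P l x := by
  have a : (Finset.univ.filter fun k => K.sk k x).card ≤ 8 := by
    refine (Finset.card_le_card (t := Finset.univ.biUnion fun r => Finset.univ.filter fun k => aa (k, true) (K.val (K.ext x) 0 r false) = 0)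
      fun k h => ?_).trans (Finset.card_biUnion_le.trans ((Finset.sum_le_sum fun r _ => roots _).trans (by simp)))
    obtain ⟨c, e, r, h⟩ := (Finset.mem_filter.1 h).2
    rw [K.val_eq (c := c) fun i a => by rw [zero_add, ext_nat, e i a]]
    simpa using ⟨r, h⟩
  have b : (Finset.univ.filter fun k => K.P k x).card ≤ 1 :=
    Finset.card_le_one.2 fun k a l b => K.P_dj (Finset.mem_filter.1 a).2 (Finset.mem_filter.1 b).2
  have c := Finset.card_filter_add_card_filter_not (s := Finset.univ) fun k => K.sk k x ∨ K.P k x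
  have d := Finset.card_union_le (Finset.univ.filter fun k => K.sk k x) (Finset.univ.filter fun k => K.P k x)
  rw [Finset.filter_or, Finset.card_univ, Fintype.card_fin] at c
  obtain ⟨k, e, l, f, g⟩ := Finset.one_lt_card.1 (show 1 < (Finset.univ.filter fun k => ¬ (K.sk k x ∨ K.P k x)).card by omega)
  exact ⟨k, l, g, by simpa using e, by simpa using f⟩

variable [TopologicalSpace A] [DiscreteTopology A]

noncomputable def ρh (s : L11) : (ℕ → A) ≃ₜ (ℕ → A) :=
  ⟨⟨K.ρ s, K.ρ (io s), K.ρ_inv s, fun x => by simpa [io_io] using K.ρ_inv (io s) x⟩, (K.ρ_sy _).cont, (K.ρ_sy _).cont⟩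

noncomputable def vh (k : Fin 11) : (ℕ → A) ≃ₜ (ℕ → A) := ⟨⟨K.vv k, K.vv k, K.vv_inv k, K.vv_inv k⟩, (K.vv_sy _).cont, (K.vv_sy _).cont⟩

noncomputable def π (s : L11) : (ℕ → A) ≃ₜ (ℕ → A) := if s.2 then K.ρh s * K.vh s.1 else (K.ρh (io s) * K.vh s.1)⁻¹

theorem π_io (s : L11) : K.π (io s) = (K.π s)⁻¹ := by obtain ⟨k, _ | _⟩ := s <;> simp [π, io]

theorem step (s : L11) (y : Fin 4 → ℤ → D) (r : Fin 4) (a : aa s (Rl s (y r) 0) = 0) (b : aa (io s) (y r 0) = 0) :
    K.π s (K.emb y) = K.emb fun r => Rl s (y r) := by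
  have k : ∀ k (y : Fin 4 → ℤ → D), aa (k, true) (y r (-1)) = 0 → K.π (k, true) (K.emb y) = K.emb fun r => Rl (k, true) (y r) := fun k y h => by
    rw [← ρ_emb]
    exact congrArg (K.ρ _) (if_pos ⟨_, fun i a => by simpa [ext_nat] using K.emb_C y 0 i a, r, h⟩)
  obtain ⟨l, _ | _⟩ := s
  · have := k l (fun r => Rl (l, false) (y r)) ((aa2 (io_ne (l, false)) ..).trans b)
    simp only [show (l, true) = io (l, false) from rfl, Rl_inv, π_io] at this
    rw [← this]; simp
  · exact k l y ((aa1 ..).symm.trans a)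

theorem per (ξ : ℕ → L11) (n : ℕ) : ∃ (y0 y1 : ℤ → D) (q : ℕ), 0 < q ∧ (∀ i, y0 (i + q) = y0 i) ∧ (∀ i, y1 (i + q) = y1 i) ∧
    ∀ (y : Fin 4 → ℤ → D) (r0 r1 : Fin 4) (Q : ℕ), y r0 = y0 → y r1 = y1 → 0 < Q → (∀ r i, y r (i + Q) = y r i) →
      ∃ M, 0 < M ∧ (gam K.π ξ n ^ M) (K.emb y) = K.emb y := by
  rcases word K.π io K.π_io (gam K.π ξ n) n 0 ξ (by simp [gam]) with h | ⟨η, m, p, h, -⟩
  · exact ⟨0, 0, 1, one_pos, by simp, by simp, fun y _ _ _ _ _ _ _ => ⟨2, two_pos, by rw [sq, h]; rfl⟩⟩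
  obtain ⟨t, t1, t2⟩ : ∃ t, t ≠ io (η (m - 1)) ∧ η 0 ≠ io t := (by decide +kernel : ∀ a b : L11, ∃ t, t ≠ io a ∧ b ≠ io t) _ _
  obtain ⟨y0, q0, a0, b0, c0⟩ := diag (fun n => if n % (m + 1) < m then η (n % (m + 1)) else t) (m + 1) (by omega) (by simp) fun n => by
    have : n % (m + 1) < m + 1 := Nat.mod_lt n (Nat.succ_pos m)
    have := h.red (n % (m + 1))
    have := io_ne t
    rcases (show (n + 1) % (m + 1) = n % (m + 1) + 1 ∨ (n + 1) % (m + 1) = 0 ∧ n % (m + 1) = m by
      rcases (show n % (m + 1) + 1 < m + 1 ∨ n % (m + 1) = m by omega) with e | e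
      · rw [← Nat.mod_add_mod, Nat.mod_eq_of_lt e]; exact .inl rfl
      · rw [← Nat.mod_add_mod, e]; simp) with e | e <;> grind
  obtain ⟨y1, q1, a1, b1, c1⟩ := diag (fun n => η (m + n)) p h.pos (fun n => by rw [← add_assoc, h.per _ (by omega)]) fun n => h.red _
  have ad : ∀ n, gam Rp η (m + n) = gam Rp (fun n => η (m + n)) n * gam Rp η m := fun n => by
    induction n with
    | zero => simp [gam]
    | succ n ih => rw [← add_assoc, gam, gam, ih, mul_assoc]
  have pm : ∀ (y : ℤ → D) (q k : ℕ), (∀ i, y (i + q) = y i) → ∀ i, y (i + (k * q : ℕ)) = y i := fun y q k h i => by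
    simpa using Function.Periodic.nat_mul h k i
  refine ⟨y0, (gam Rp η m)⁻¹ y1, q1 * q0, by positivity, pm _ _ _ b0, by
    rw [mul_comm]
    refine pm _ _ _ (congrFun ((gam Rp η m).injective ?_))
    simp [Rp_sh, b1], fun y r0 r1 Q e0 e1 a b => ?_⟩
  have o : ∀ n, gam K.π η n (K.emb y) = K.emb fun r => gam Rp η n (y r) := fun n => by
    induction n with
    | zero => rfl
    | succ n ih =>
      rw [gam, Homeomorph.mul_apply, ih]
      by_cases c : n < m
      · have := c0 n
        have g : ∀ j ≤ n + 1, gam Rp (fun n => if n % (m + 1) < m then η (n % (m + 1)) else t) j = gam Rp η j := fun j d =>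
          gam_congr _ fun i e => by rw [Nat.mod_eq_of_lt (by omega), if_pos (by omega)]
        rw [g _ le_rfl, g _ (by omega), Nat.mod_eq_of_lt (by omega), if_pos c, ← e0] at this
        exact K.step _ _ r0 this.1 this.2
      · obtain ⟨n, rfl⟩ := Nat.exists_eq_add_of_le (not_lt.1 c)
        have := c1 n
        rw [← show gam Rp η m (y r1) = y1 by simp [e1], ← Equiv.Perm.mul_apply, ← Equiv.Perm.mul_apply, ← ad, ← ad] at this
        exact K.step _ _ r1 this.1 this.2
  obtain ⟨k, l, c, d⟩ := Set.Finite.exists_lt_map_eq_of_forall_mem (f := fun (k : ℕ) r (i : Fin Q) => gam Rp η (m + k * p) (y r) i)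
    (fun _ => Set.mem_univ _) Set.finite_univ
  have pe : ∀ n r i, gam Rp η n (y r) i = gam Rp η n (y r) (i % Q) := fun n r i => by
    have : Function.Periodic (gam Rp η n (y r)) Q := congrFun ((Rp_sh ..).symm.trans (by simp [b]))
    rw [Int.emod_def, mul_comm]
    exact ((this.int_mul _).sub_eq _).symm
  have : gam K.π η (m + k * p) (K.emb y) = gam K.π η (m + l * p) (K.emb y) := by
    rw [o, o]
    congr 1
    funext r i
    have := congrFun (congrFun d r) ⟨(i % Q).toNat, by have := Int.emod_lt_of_pos i (b := Q) (by omega); omega⟩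
    rwa [Int.toNat_of_nonneg (Int.emod_nonneg _ (by omega)), ← pe, ← pe] at this
  rw [h.pow _ _ le_rfl, h.pow _ _ le_rfl, ← Nat.add_sub_cancel' c.le, pow_add, ← mul_assoc] at this
  exact ⟨l - k, by omega, ((gam K.π η m * gam K.π ξ n ^ k).injective this).symm⟩

theorem bad : Bad io K.π := by
  refine ⟨K.π_io, ⟨Finset.univ.filter (·.2), fun s => {x | s.2 ∧ ¬ K.sk s.1 x ∧ ¬ K.P s.1 x}, fun s => {x | K.P s.1 x}, fun s => ⟨?_, ?_, ?_⟩,
    fun s a t b x c d => Prod.ext (K.P_dj c d) (by simp_all), fun x => ?_⟩, fun ξ n η m h => ?_⟩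
  · refine isOpen_iff_eventually.2 fun x h => (ev_agree x (K.L + (s.1.val + 3))).mono fun y e => ?_
    rwa [Set.mem_ofPred, K.sk_congr _ fun i a => e i (by omega), K.P_congr _ fun i a => e _ (by omega)]
  · refine isOpen_iff_eventually.2 fun x h => (ev_agree x (K.L + (s.1.val + 3))).mono fun y e => ?_
    rwa [Set.mem_ofPred, K.P_congr _ fun i a => e _ (by omega)]
  · rintro x ⟨a, b, c⟩
    rw [π, if_pos a]
    exact K.P_ρ s _ (by simpa [vh, vv, b, c] using K.P_ins s.1 x)
  · obtain ⟨k, l, a, b, c⟩ := K.two x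
    exact ⟨(k, true), by simp, (l, true), by simp, by simpa, ⟨rfl, b⟩, rfl, c⟩
  · obtain ⟨U, V, U', V', a, b, c⟩ := h.pp
    obtain ⟨y0, y1, q, a0, a1, a2, a3⟩ := K.per ξ n
    obtain ⟨y2, y3, Q, b0, b1, b2, b3⟩ := K.per η m
    have t : ∀ r i, ![y0, y1, y2, y3] r (i + (q * Q : ℕ)) = ![y0, y1, y2, y3] r i := fun r i => by
      fin_cases r
      · simpa [mul_comm] using Function.Periodic.nat_mul a1 Q i
      · simpa [mul_comm] using Function.Periodic.nat_mul a2 Q i
      · simpa using Function.Periodic.nat_mul b1 q i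
      · simpa using Function.Periodic.nat_mul b2 q i
    obtain ⟨M, d, e⟩ := a3 _ 0 1 _ rfl rfl (by positivity) t
    obtain ⟨M', d', e'⟩ := b3 _ 2 3 _ rfl rfl (by positivity) t
    exact c _ (a.per d e) (b.per d' e')

end Code

theorem code_ne (A : Type) [Nontrivial A] : Nonempty (Code A) := by
  obtain ⟨a, b, h⟩ := exists_pair_ne A
  obtain ⟨L, c, h1, h2, h3, h4, h5⟩ := ex_code a b h
  exact ⟨⟨a, b, h, L, c, h1, h2, h3, h4, h5⟩⟩

theorem not_RA (A : Type) [Finite A] [Nontrivial A] [TopologicalSpace A] [DiscreteTopology A] : ¬ DynTits (RA A) := by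
  obtain ⟨K⟩ := code_ne A
  have : ∀ s k, K.ρh s * K.vh k ∈ RA A := fun s k =>
    mul_mem (Subgroup.subset_closure (K.ρ_sy s).rat) (Subgroup.subset_closure (K.vv_sy k).rat)
  exact K.bad.not fun s => by unfold Code.π; split_ifs; exacts [this _ _, inv_mem (this _ _)]

theorem not_AutV (d k : ℕ) (hd : 2 ≤ d) (hk : 1 ≤ k) : ¬ DynTits (AutV d k) := by
  have := Fin.nontrivial_iff_two_le.2 hd
  obtain ⟨K⟩ := code_ne (Fin d)
  have : ∀ s l, up k (K.ρh s * K.vh l) ∈ AutV d k := fun s l =>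
    mul_mem (up_mem (φ := K.ρh s) (K.ρ_sy s) (K.ρ_sy _)) (up_mem (φ := K.vh l) (K.vv_sy l) (K.vv_sy l))
  refine (K.bad.lift (fun s => up k (K.π s)) (fun s => by rw [K.π_io]; rfl) (fun x => (⟨0, hk⟩, x)) Prod.snd (by fun_prop) continuous_snd
    (fun _ _ => rfl) fun _ _ => rfl).not fun s => ?_
  unfold Code.π
  split_ifs
  exacts [this _ _, inv_mem (this _ _)]

end Pool.Agent.H.MP_e5892f_al
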