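import Pool.Agent.H.MP_e5892f_al.A

set_option autoImplicit false

namespace Pool.Agent.H.MP_e5892f_al.Two

open Classical Filter Topology

abbrev Hf := Fin 8 × Bool × Bool
abbrev Col := Bool → Bool → Hf
abbrev Y := Bool × (ℤ → Col)

def ep (d : Bool) : ℤ := if d then 1 else -1
def dl (k : Hf) (d : Bool) : ℤ := if k.2.1 then 0 else ep d
def tr (k : Hf) (t : Bool) : Bool := if k.2.1 then !t else xor t k.2.2
def dr (k : Hf) (d : Bool) : Bool := if k.2.1 then d else !d
def act (s : Fin 8) (y : Y) (d : Bool) : Prop := (y.2 0 y.1 d).1 = s ∧ (y.2 0 y.1 (!d)).1 ≠ s ∧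
  y.2 (dl (y.2 0 y.1 d) d) (tr (y.2 0 y.1 d) y.1) (dr (y.2 0 y.1 d) d) = y.2 0 y.1 d ∧
  (y.2 (dl (y.2 0 y.1 d) d) (tr (y.2 0 y.1 d) y.1) (!dr (y.2 0 y.1 d) d)).1 ≠ s
def mv (y : Y) (d : Bool) (z : Y) : Y := (tr (y.2 0 y.1 d) y.1, fun n => z.2 (n + dl (y.2 0 y.1 d) d))
def N (s : Fin 8) : Col := fun _ _ => (s, false, false)
def ins (s : Fin 8) (z : Y) : Y := (z.1, fun n => if n < 2 then z.2 n else if n = 2 then N s else z.2 (n - 1))
def del (z : Y) : Y := (z.1, fun n => if n < 2 then z.2 n else z.2 (n + 1))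
noncomputable def J (s : Fin 8) (y z : Y) : Y := if act s y true then mv y true z else if act s y false then mv y false z else
  if y.2 2 ≠ N s then ins s z else if y.2 3 ≠ N s then del z else z

theorem ep_ep (d : Bool) (i : ℤ) : ep d * (ep d * i) = i := by cases d <;> simp [ep]
theorem dl_mem (k : Hf) (d : Bool) : -1 ≤ dl k d ∧ dl k d ≤ 1 := by unfold dl ep; split_ifs <;> simp

theorem J_act {s : Fin 8} {y : Y} {d : Bool} (h : act s y d) : J s y y = mv y d y := by
  cases d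
  · rw [J, if_neg fun k => h.2.1 k.1, if_pos h]
  · rw [J, if_pos h]

theorem act_congr (s : Fin 8) {y z : Y} (a : y.1 = z.1) (b : ∀ i, -1 ≤ i → i ≤ 1 → y.2 i = z.2 i) (d : Bool) : act s y d ↔ act s z d := by
  simp only [act, a, b 0 (by omega) (by omega), b _ (dl_mem _ d).1 (dl_mem _ d).2]

theorem J_inv (s : Fin 8) (y : Y) : J s (J s y y) (J s y y) = y := by
  by_cases h : ∃ d, act s y d
  · obtain ⟨d, h⟩ := h
    have e : ∀ k t, dl k d + dl k (dr k d) = 0 ∧ dl k (dr k d) + dl k d = 0 ∧ tr k (tr k t) = t ∧ dr k (dr k d) = d := by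
      rintro ⟨k, _ | _, _ | _⟩ t <;> cases d <;> simp [dl, dr, tr, ep]
    obtain ⟨a, b, c, f⟩ := id h
    rw [J_act h, J_act (d := dr (y.2 0 y.1 d) d) (by simp [act, mv, e _ y.1, *])]
    simp [mv, c, add_assoc, e _ y.1]
  · push Not at h
    have a := fun d => (act_congr s (y := ins s y) (z := y) rfl (fun i _ _ => if_pos (by omega)) d).not.2 (h d)
    have b := fun d => (act_congr s (y := del y) (z := y) rfl (fun i _ _ => if_pos (by omega)) d).not.2 (h d)
    by_cases c : y.2 2 = N s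
    · by_cases f : y.2 3 = N s
      · simp [J, *]
      · simp only [J, h, b, c, f, ne_eq, not_true, not_false_iff, if_true, if_false, show (del y).2 2 = y.2 3 from rfl]
        exact Prod.ext rfl (funext fun n => by grind [ins, del])
    · simp only [J, h, a, c, ne_eq, not_true, not_false_iff, if_true, if_false, show (ins s y).2 2 = N s from rfl, show (ins s y).2 3 = y.2 2 from rfl]
      exact Prod.ext rfl (funext fun n => by simp only [ins, del]; split_ifs <;> first | rfl | omega | simp)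

theorem J_ev (s : Fin 8) (y : Y) : ∀ᶠ z in 𝓝 y, (∀ d, act s z d ↔ act s y d) ∧ z.2 2 = y.2 2 ∧ J s z = J s y := by
  have : ∀ᶠ z : Y in 𝓝 y, ∀ i ∈ Finset.Icc (-1 : ℤ) 3, z.2 i = y.2 i := (eventually_all_finset _).2 fun i _ =>
    (((continuous_apply i).comp continuous_snd).tendsto y).eventually (p := (· = y.2 i)) (by simp)
  filter_upwards [this, continuous_fst.continuousAt.eventually (p := (· = y.1)) (by simp)] with z a b
  have c := act_congr s b fun i _ _ => a i (by simp; omega)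
  refine ⟨c, a 2 (by simp), funext fun w => ?_⟩
  simp only [J, mv, c, b, a 0 (by simp), a 2 (by simp), a 3 (by simp)]

theorem J_cont (s : Fin 8) : Continuous fun y => J s y y := by
  refine continuous_iff_continuousAt.2 fun y => ContinuousAt.congr (f := J s y) (Continuous.continuousAt ?_) ((J_ev s y).mono fun z h => congrFun h.2.2.symm z)
  unfold J mv ins del
  split_ifs
  · fun_prop
  · fun_prop
  · refine continuous_fst.prodMk (continuous_pi fun n => ?_)
    split_ifs <;> fun_prop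
  · refine continuous_fst.prodMk (continuous_pi fun n => ?_)
    split_ifs <;> fun_prop
  · fun_prop

noncomputable def j (s : Fin 8) : Y ≃ₜ Y := ⟨⟨fun y => J s y y, fun y => J s y y, J_inv s, J_inv s⟩, J_cont s, J_cont s⟩

theorem j_j (s : Fin 8) (y : Y) : j s (j s y) = y := J_inv s y

theorem j_loc (s : Fin 8) (y : Y) : ∃ a b a' b' : ℕ, ∀ᶠ z in 𝓝 y, ∀ i : ℕ,
    (j s z).2 ((b + i : ℕ) + 1) = z.2 ((a + i : ℕ) + 1) ∧ (j s z).2 (-(b' + i : ℕ)) = z.2 (-(a' + i : ℕ)) := by
  suffices ∃ a b a' b' : ℕ, ∀ z (i : ℕ), (J s y z).2 ((b + i : ℕ) + 1) = z.2 ((a + i : ℕ) + 1) ∧ (J s y z).2 (-(b' + i : ℕ)) = z.2 (-(a' + i : ℕ)) by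
    obtain ⟨a, b, a', b', h⟩ := this
    exact ⟨a, b, a', b', (J_ev s y).mono fun z e i => by simpa [j, e.2.2] using h z i⟩
  have m : ∀ d, ∃ a b a' b' : ℕ, ∀ z (i : ℕ), (mv y d z).2 ((b + i : ℕ) + 1) = z.2 ((a + i : ℕ) + 1) ∧
      (mv y d z).2 (-(b' + i : ℕ)) = z.2 (-(a' + i : ℕ)) := fun d => by
    have := dl_mem (y.2 0 y.1 d) d
    exact ⟨(1 + dl (y.2 0 y.1 d) d).toNat, 1, (1 - dl (y.2 0 y.1 d) d).toNat, 1, fun z i => ⟨congrArg z.2 (by omega), congrArg z.2 (by omega)⟩⟩
  unfold J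
  split_ifs
  · exact m _
  · exact m _
  · exact ⟨1, 2, 0, 0, fun z i => by grind [ins]⟩
  · exact ⟨2, 1, 0, 0, fun z i => by grind [del]⟩
  · exact ⟨0, 0, 0, 0, fun _ _ => ⟨rfl, rfl⟩⟩

def pt (τ : ℤ → Col) (i : ℤ) (t : Bool) : Y := (t, fun n => τ (n + i))

theorem step (τ : ℤ → Col) (i : ℤ) (t d : Bool) (k : Hf) (a : τ i t d = k) (b : (τ i t (!d)).1 ≠ k.1)
    (c : τ (dl k d + i) (tr k t) (dr k d) = k) (e : (τ (dl k d + i) (tr k t) (!dr k d)).1 ≠ k.1) :
    j k.1 (pt τ i t) = pt τ (dl k d + i) (tr k t) :=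
  (J_act (d := d) (by simp [act, pt, *])).trans (by simp [mv, pt, a, add_assoc])

def mk (D : Bool) (t0 : ℤ → Bool) (e κ : ℤ → Hf) (i : ℤ) (t d : Bool) : Hf :=
  (if t = t0 (ep D * i) then e else κ) (if d = D then ep D * i else ep D * i - 1)

theorem step_mk (D : Bool) (t0 : ℤ → Bool) (e κ : ℤ → Hf) (i : ℤ) (a : (e i).2 = (false, xor (t0 i) (t0 (i + 1))))
    (b : (e (i - 1)).1 ≠ (e i).1) (c : (e (i + 1)).1 ≠ (e i).1) :
    j (e i).1 (pt (mk D t0 e κ) (ep D * i) (t0 i)) = pt (mk D t0 e κ) (ep D * (i + 1)) (t0 (i + 1)) := by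
  have h1 : dl (e i) D + ep D * i = ep D * (i + 1) := by simp [dl, a, mul_add, add_comm]
  have h2 : tr (e i) (t0 i) = t0 (i + 1) := by simp [tr, a]
  have h3 : dr (e i) D = !D := by simp [dr, a]
  rw [step _ _ _ D (e i), h1, h2] <;> simp [h1, h2, h3, mk, ep_ep, b, c]

def cell (D t : Bool) (e κ : ℤ → Fin 8) (i : ℤ) : Col := fun u d => ((if u = t then e else κ) (if d = D then i else i - 1), false, false)

theorem conv (τ P : ℤ → Col) (u : ℕ → ℤ) (t : Bool) (h : ∀ n, ∀ᶠ k in atTop, τ (n + u k) = P n) :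
    Tendsto (fun k => pt τ (u k) t) atTop (𝓝 (t, P)) :=
  tendsto_const_nhds.prodMk_nhds (tendsto_pi_nhds.2 fun n => tendsto_const_nhds.congr' ((h n).mono fun _ => Eq.symm))

theorem tend {f : Y ≃ₜ Y} {ξ : ℕ → Fin 8} {m p : ℕ} (r : Rep j id f ξ m p) (D t : Bool) (e κ : ℤ → Fin 8)
    (pe : Function.Periodic e p) (pκ : Function.Periodic κ p) (y : Y) (τ : ℤ → Col) (n0 n1 : ℕ)
    (b : ∀ n : ℕ, n1 ≤ n → gam j ξ n y = pt τ (ep D * (n - n0)) t) (c : ∀ i : ℤ, n1 ≤ i → τ (ep D * (i - n0)) = cell D t e κ (i - m)) :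
    Tendsto (fun k : ℕ => (f ^ k) y) atTop (𝓝 ((gam j ξ m)⁻¹ (t, fun i => cell D t e κ (ep D * i)))) := by
  have := r.pos
  have k := conv τ (fun i => cell D t e κ (ep D * i)) (fun k => ep D * ((m + k * p : ℕ) - n0)) t fun n =>
    (eventually_ge_atTop (n1 + n.natAbs)).mono fun k d => by
      have : k ≤ k * p := Nat.le_mul_of_pos_right k this
      rw [← ep_ep D n, ← mul_add, ← add_sub_assoc, c _ (by unfold ep; split_ifs <;> omega), ep_ep]
      funext u d
      have : Function.Periodic (if u = t then e else κ) p := by split_ifs <;> assumption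
      rw [cell, cell, ← this.nat_mul k (if d = D then ep D * n else _)]
      congr 2
      split_ifs <;> push_cast <;> ring_nf
  refine (((gam j ξ m)⁻¹).continuous.tendsto _).comp k |>.congr' ((eventually_ge_atTop n1).mono fun k d => ?_)
  have : k ≤ k * p := Nat.le_mul_of_pos_right k this
  simp only [Function.comp]
  rw [← b _ (by omega), r.pow _ _ le_rfl]
  simp

theorem mirror (D t : Bool) (e κ : ℤ → Fin 8) (i : ℤ) :
    cell (!D) t e κ (ep (!D) * i) = cell D t (fun i => e (-1 - i)) (fun i => κ (-1 - i)) (ep D * i) := by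
  funext u d
  cases D <;> cases d <;> by_cases h : u = t <;> simp [cell, ep, h] <;> ring_nf

theorem ray {g : Y ≃ₜ Y} {U V : Set Y} (h : PP g U V) {ξ : ℕ → Fin 8} {m p : ℕ} (r : Rep j id g ξ m p)
    (mn : ∀ n, m = n + 1 → ξ n ≠ ξ (n + p)) (D : Bool) : ∃ (f : Y ≃ₜ Y) (U' V' : Set Y) (η : ℕ → Fin 8) (e κ : ℤ → Fin 8) (t : Bool), PP f U' V' ∧ U' ∪ V' = U ∪ V ∧ Rep j id f η m p ∧
      (∀ n : ℕ, e n = η (m + n)) ∧ Function.Periodic e p ∧ Function.Periodic κ p ∧
      (gam j η m)⁻¹ (t, fun i => cell D t e κ (ep D * i)) ∈ U' := by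
  have hp := r.pos
  obtain ⟨c, c1, c2⟩ : ∃ c : ℤ → Fin 8, Function.Periodic c p ∧ ∀ n : ℕ, c n = ξ (m + n) :=
    ⟨fun i => ξ (m + (i % p).toNat), fun i => by simp, fun n => Function.Periodic.map_mod_nat (f := fun n => ξ (m + n))
      (fun n => (congrArg ξ (add_assoc m n p).symm).trans (r.per (m + n) (by omega))) n⟩
  have c3 : ∀ i, c (i + 1) ≠ c i := fun i => by
    obtain ⟨n, e⟩ : ∃ n : ℕ, i + i.natAbs * p = n := ⟨_, (Int.toNat_of_nonneg (by
      have : (i.natAbs : ℤ) ≤ i.natAbs * p := by exact_mod_cast Nat.le_mul_of_pos_right _ hp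
      omega)).symm⟩
    rw [← c1.nat_mul i.natAbs i, ← c1.nat_mul i.natAbs (i + 1), add_right_comm, e, ← Nat.cast_succ, c2, c2]
    exact r.red _
  have c4 : ∀ i, c (i - 1) ≠ c i := fun i => by simpa using (c3 (i - 1)).symm
  have c5 : Function.Periodic (fun i => c (-i)) p := fun i => (congrArg c (neg_add' ..)).trans (c1.sub_eq (-i))
  let a : ℤ → Hf := fun i => (c i, decide (i = 0), false)
  let b : ℤ → Hf := fun i => (c (-i), decide (i = 0), false)
  let Z := mk D (fun _ => false) a b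
  let y : ℤ → Y := fun n => if n ≤ 0 then pt Z (ep D * n) false else pt Z (ep D * (1 - n)) true
  have s : ∀ n, j (c n) (y n) = y (n + 1) := fun n => by
    rcases lt_trichotomy n 0 with d | rfl | d
    · simpa only [y, if_pos d.le, if_pos (show n + 1 ≤ 0 by omega)] using step_mk D (fun _ => false) a b n (by simp [a, d.ne]) (c4 n) (c3 n)
    · simpa [y, dl, tr, a] using step Z 0 false D (a 0) (by simp [Z, mk]) (by simpa [Z, mk, a] using c4 0) (by simp [Z, mk, a, b, dl, tr, dr])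
        (by simpa [Z, mk, a, b, dl, tr, dr] using c3 0)
    · have := step_mk D (fun _ => true) b a (-n) (by simp [b, d.ne']) (by simpa [b, add_comm] using c3 n) (by simpa [b, neg_add_eq_sub] using c4 n)
      rw [show mk D (fun _ => true) b a = Z by funext i t d; cases t <;> rfl, neg_add_eq_sub] at this
      simp only [y, if_neg d.not_ge, if_neg (show ¬ n + 1 ≤ 0 by omega), ← this, b, neg_neg, j_j]
      congr 2; ring
  let η : ℕ → Fin 8 := fun n => if n < m then ξ n else c (m - 1 - n)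
  have g0 : gam j η m = gam j ξ m := gam_congr _ fun i d => if_pos d
  have c6 : Function.Periodic (fun i => c (-1 - i)) p := fun i => by simpa [← sub_sub] using c1.sub_eq (-1 - i)
  have c7 : Function.Periodic (fun i => c (i + 1)) p := fun i => by simpa [add_right_comm] using c1 (i + 1)
  have c8 : ∀ n : ℕ, c (-1 - n) = η (m + n) := fun n => by
    simp only [η, if_neg (show ¬ m + n < m by omega)]; congr 1; push_cast; ring
  have r' : Rep j id g⁻¹ η m p := by
    refine ⟨hp, fun n => ?_, fun n d => ?_, ?_⟩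
    · rcases lt_trichotomy (n + 1) m with d | rfl | d
      · simpa [η, d, show n < m by omega] using r.red n
      · have := mn n rfl
        rw [show n + p = n + 1 + (p - 1) by omega, ← c2, ← c1.sub_eq, show ((p - 1 : ℕ) : ℤ) - p = -1 by omega] at this
        simpa [η] using this.symm
      · simpa [η, d.not_gt, show ¬ n < m by omega, ← sub_sub] using c4 (m - 1 - n)
    · obtain ⟨n, rfl⟩ := Nat.exists_eq_add_of_le d
      rw [add_assoc, ← c8, ← c8, Nat.cast_add]
      exact c6 n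
    · have : ∀ i ≤ p, gam j η (m + i) * g = gam j ξ (m + (p - i)) := fun i d => by
        induction i with
        | zero => simp [g0, r.eq]
        | succ i ih =>
          rw [← add_assoc, gam, mul_assoc, ih (by omega), show m + (p - i) = m + (p - (i + 1)) + 1 by omega, gam, ← c8, ← c2, ← c1 (-1 - i),
            show -1 - (i : ℤ) + p = (p - (i + 1) : ℕ) by omega]
          ext1 x
          exact j_j ..
      rw [g0, eq_mul_inv_iff_mul_eq, this p le_rfl, Nat.sub_self, add_zero]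
  have o1 : ∀ i : ℕ, gam j ξ (m + i) ((gam j ξ m)⁻¹ (y 0)) = y i := fun i => by
    induction i with
    | zero => simp
    | succ i ih => rw [← add_assoc, gam, Homeomorph.mul_apply, ih, ← c2, s, Nat.cast_succ]
  have o2 : ∀ i : ℕ, gam j η (m + i) ((gam j ξ m)⁻¹ (y 0)) = y (-i) := fun i => by
    induction i with
    | zero => simp [g0]
    | succ i ih => rw [← add_assoc, gam, Homeomorph.mul_apply, ih, ← c8, show (-i : ℤ) = -1 - i + 1 by ring, ← s, j_j]; congr 1; push_cast; ring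
  have en : ∀ i, ep (!D) * i = ep D * -i := fun i => by cases D <;> simp [ep]
  have t1 := tend r (!D) true c _ c1 c5 ((gam j ξ m)⁻¹ (y 0)) Z (m + 1) (m + 2) (fun n d => by
      obtain ⟨n, rfl⟩ := Nat.exists_eq_add_of_le (show m ≤ n by omega)
      simp only [o1, y, if_neg (show ¬ (n : ℤ) ≤ 0 by omega), en]; congr 2; push_cast; ring) fun i d => by
    funext u v
    rw [en, show -(i - (m + 1 : ℕ)) = -(i - m) + 1 by push_cast; ring]
    have : i - m ≠ 0 ∧ i - m ≠ 1 := by omega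
    generalize i - m = i at *
    cases D <;> cases u <;> cases v <;> simp [Z, mk, cell, ep, a, b, neg_add_eq_sub, this] <;> omega
  have t2 := tend r' (!D) false _ _ c6 c7 ((gam j ξ m)⁻¹ (y 0)) Z m (m + 1) (fun n d => by
      obtain ⟨n, rfl⟩ := Nat.exists_eq_add_of_le (show m ≤ n by omega)
      simp only [o2, y, if_pos (show -(n : ℤ) ≤ 0 by omega), en]; congr 2; push_cast; ring) fun i d => by
    funext u v
    rw [en]
    have : i - m ≠ 0 ∧ i - m ≠ -1 := by omega
    generalize i - m = i at *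
    cases D <;> cases u <;> cases v <;> simp [Z, mk, cell, ep, a, b, add_comm, this] <;>
      first | omega | (congr 1; omega) | exact ⟨by congr 1; omega, by omega⟩
  simp only [mirror, sub_sub_cancel, neg_sub, sub_neg_eq_add, show ∀ i : ℤ, -1 - i + 1 = -i from fun i => by ring, g0] at t1 t2
  by_cases q : (gam j ξ m)⁻¹ (false, fun i => cell D false c (fun i => c (-i)) (ep D * i)) ∈ U
  · exact ⟨g, U, V, ξ, c, _, false, h, rfl, r, c2, c1, c5, q⟩
  · exact ⟨g⁻¹, V, U, η, _, _, true, h.symm, Set.union_comm .., r', c8, c6, c7, g0 ▸ (h.fix t1).resolve_left fun w =>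
      h.dj _ (h.lim t1 w) (h.symm.lim t2 ((h.symm.fix t2).resolve_right q))⟩

theorem npp (ξ : ℕ → Fin 8) (n : ℕ) (η : ℕ → Fin 8) (n' : ℕ) : ¬ PingPong (gam j ξ n) (gam j η n') := fun h => by
  obtain ⟨U, V, U', V', a, b, c⟩ := h.pp
  have ji : ∀ s, j (id s) = (j s)⁻¹ := fun _ => rfl
  have y0 : Y := default
  rcases word j id ji (gam j ξ n) n 0 ξ (by simp [gam]) with d | ⟨ξ, m, p, r, d⟩
  · have : ∀ y, y ∈ U ∪ V := fun y => a.per two_pos (by rw [sq, d]; rfl)
    exact c _ (this _) (.inr (b.mp y0 fun k => c _ (this _) (.inl k)))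
  rcases word j id ji (gam j η n') n' 0 η (by simp [gam]) with d' | ⟨η, m', p', r', d'⟩
  · have : ∀ y, y ∈ U' ∪ V' := fun y => b.per two_pos (by rw [sq, d']; rfl)
    exact c _ (.inr (a.mp y0 fun k => c _ (.inl k) (this _))) (this _)
  obtain ⟨f, U, V, ξ, e, κ, t, a, a1, r, a2, a3, a4, a5⟩ := ray a r d true
  obtain ⟨f', U', V', η, e', κ', t', b, b1, r', b2, b3, b4, b5⟩ := ray b r' d' false
  rw [← a1, ← b1] at c
  by_cases q : ∃ n, ξ n ≠ η n
  · have q1 := Nat.find_spec q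
    have q2 : gam j η (Nat.find q) = gam j ξ (Nat.find q) := gam_congr _ fun i k => (not_not.1 (Nat.find_min q k)).symm
    generalize Nat.find q = n0 at q1 q2
    let l : ℤ → Fin 8 := fun i => if 0 ≤ i then ξ (n0 + i.toNat) else η (n0 + (-1 - i).toNat)
    have l1 : ∀ i : ℕ, l i = ξ (n0 + i) := fun i => by simp [l]
    have l2 : ∀ i : ℕ, l (-1 - i) = η (n0 + i) := fun i => by simp [l, show ¬ (i : ℤ) ≤ -1 by omega]
    have l3 : ∀ i, l (i + 1) ≠ l i := fun i => by
      rcases i with i | _ | i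
      · exact (l1 i ▸ l1 (i + 1) ▸ r.red (n0 + i) :)
      · exact (l1 0 ▸ l2 0 ▸ q1 :)
      · have := l2 i ▸ l2 (i + 1) ▸ (r'.red (n0 + i)).symm
        rwa [show Int.negSucc (i + 1) + 1 = -1 - i by omega, show Int.negSucc (i + 1) = -1 - (i + 1 : ℕ) by omega]
    let t0 : ℤ → Bool := fun i => if 0 < i then t else t'
    let τ := mk true t0 (fun i => (l i, false, xor (t0 i) (t0 (i + 1)))) fun i => (if 0 ≤ i then κ (i + n0 - m) else κ' (-1 - i + n0 - m'), false, false)
    have s : ∀ i, j (l i) (pt τ i (t0 i)) = pt τ (i + 1) (t0 (i + 1)) := fun i => by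
      simpa [ep] using step_mk true t0 (fun i => (l i, false, xor (t0 i) (t0 (i + 1)))) _ i rfl (by simpa using (l3 (i - 1)).symm) (l3 i)
    have o1 : ∀ i : ℕ, gam j ξ (n0 + i) ((gam j ξ n0)⁻¹ (pt τ 0 t')) = pt τ i (t0 i) := fun i => by
      induction i with
      | zero => simp [t0]
      | succ i ih => rw [← add_assoc, gam, Homeomorph.mul_apply, ih, ← l1, s, Nat.cast_succ]
    have o2 : ∀ i : ℕ, gam j η (n0 + i) ((gam j ξ n0)⁻¹ (pt τ 0 t')) = pt τ (-i) (t0 (-i)) := fun i => by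
      induction i with
      | zero => simp [t0, q2]
      | succ i ih =>
        rw [← add_assoc, gam, Homeomorph.mul_apply, ih, ← l2, show (-i : ℤ) = -1 - i + 1 by ring, ← s, j_j, show -((i + 1 : ℕ) : ℤ) = -1 - i by omega]
    refine c ((gam j ξ n0)⁻¹ (pt τ 0 t')) (.inl (a.lim (tend r true t e κ a3 a4 _ τ n0 (n0 + m + 2) (fun n k => ?_) fun i k => ?_) a5))
      (.inl (b.lim (tend r' false t' e' κ' b3 b4 _ τ n0 (n0 + m' + 2) (fun n k => ?_) fun i k => ?_) b5))
    · obtain ⟨n, rfl⟩ := Nat.exists_eq_add_of_le (show n0 ≤ n by omega)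
      rw [o1]; simp [ep, t0, show 0 < n by omega]
    · have w : ∀ i : ℤ, n0 + m + 1 ≤ i → l (i - n0) = e (i - m) ∧ t0 (i - n0) = t ∧ t0 (i - n0 + 1) = t ∧ 0 ≤ i - n0 := fun i k => by
        obtain ⟨i, rfl⟩ : ∃ n : ℕ, i = (n + n0 + m : ℕ) := ⟨(i - n0 - m).toNat, by omega⟩
        refine ⟨?_, if_pos (by omega), if_pos (by omega), by omega⟩
        rw [show ((i + n0 + m : ℕ) : ℤ) - n0 = (i + m : ℕ) by omega, show ((i + n0 + m : ℕ) : ℤ) - m = (i + n0 : ℕ) by omega, l1, a2]
        congr 1; omega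
      have w1 := w i (by omega)
      have w2 := w (i - 1) (by omega)
      funext u v
      rw [sub_right_comm _ _ (n0 : ℤ), sub_right_comm _ _ (m : ℤ)] at w2
      by_cases a : u = t <;> cases v <;> simp only [τ, mk, cell, ep, a, w1, w2, if_true, if_false, one_mul, sub_add_cancel, Bool.false_eq_true,
        Bool.xor_self] <;> ring_nf
    · obtain ⟨n, rfl⟩ := Nat.exists_eq_add_of_le (show n0 ≤ n by omega)
      rw [o2]; simp [ep, t0, show ¬ (n : ℤ) < 0 by omega]
    · have w : ∀ i : ℤ, n0 + m' + 1 ≤ i → l (n0 - i - 1) = e' (i - m') ∧ t0 (n0 - i - 1) = t' ∧ t0 (n0 - i) = t' ∧ ¬ 0 ≤ n0 - i - 1 := fun i k => by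
        obtain ⟨i, rfl⟩ : ∃ n : ℕ, i = (n + n0 + m' : ℕ) := ⟨(i - n0 - m').toNat, by omega⟩
        refine ⟨?_, if_neg (by omega), if_neg (by omega), by omega⟩
        rw [show n0 - ((i + n0 + m' : ℕ) : ℤ) - 1 = -1 - (i + m' : ℕ) by omega, show ((i + n0 + m' : ℕ) : ℤ) - m' = (i + n0 : ℕ) by omega, l2, b2]
        congr 1; omega
      have w1 := w i (by omega)
      have w2 := w (i - 1) (by omega)
      rw [show n0 - (i - 1) - 1 = n0 - i by ring, show n0 - (i - 1) = n0 - i + 1 by ring, sub_right_comm] at w2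
      funext u v
      by_cases a : u = t' <;> cases v <;> simp only [τ, mk, cell, ep, a, w1, w2, if_true, if_false, one_mul, sub_add_cancel, Bool.false_eq_true,
        Bool.true_eq_false, neg_mul, neg_sub, Bool.xor_self] <;> ring_nf
  · obtain rfl : ξ = η := funext (by simpa using q)
    have k := (r.pow _ (max m m') (by omega) p').symm.trans (mul_comm p p' ▸ r'.pow _ (max m m') (by omega) p)
    obtain ⟨y, k1, k2⟩ : ∃ y, y ∉ U ∧ y ∉ U' := by
      by_cases u : y0 ∈ U
      · have := b.mp y0 fun k => c _ (.inl u) (.inl k)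
        exact ⟨_, fun k => c _ (.inl k) (.inr this), fun k => b.dj _ k this⟩
      · have := a.mp y0 u
        exact ⟨_, fun k => a.dj _ k this, fun k => c _ (.inr this) (.inl k)⟩
    exact c _ (.inr (a.fwd k1 p' r'.pos)) (.inr (mul_left_cancel k ▸ b.fwd k2 p r.pos))

theorem bad : Bad id j := by
  refine ⟨fun _ => rfl, ⟨Finset.univ, fun s => {y | (∀ d, ¬ act s y d) ∧ y.2 2 ≠ N s}, fun s => {y | y.2 2 = N s}, fun s => ⟨?_, ?_, ?_⟩,
    fun s _ t _ y a b => congrArg (· true true |>.1) (a.symm.trans b), fun y => ?_⟩, npp⟩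
  · exact isOpen_iff_eventually.2 fun y h => (J_ev s y).mono fun z e => by simpa [e.1, e.2.1] using h
  · exact isOpen_iff_eventually.2 fun y h => (J_ev s y).mono fun z e => e.2.1.trans h
  · exact fun y h => by simp [j, J, h.1, h.2, ins]
  · obtain ⟨s, t, a, b⟩ : ∃ s t : Fin 8, s ≠ t ∧ ∀ u ∈ [s, t], (y.2 0 y.1 true).1 ≠ u ∧ (y.2 0 y.1 false).1 ≠ u ∧ (y.2 2 true true).1 ≠ u :=
      (by decide +kernel : ∀ a b c : Fin 8, ∃ s t : Fin 8, s ≠ t ∧ ∀ u ∈ [s, t], a ≠ u ∧ b ≠ u ∧ c ≠ u) _ _ _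
    have : ∀ u ∈ [s, t], (∀ d, ¬ act u y d) ∧ y.2 2 ≠ N u := fun u k =>
      ⟨fun d h => by cases d; exacts [(b u k).2.1 h.1, (b u k).1 h.1], fun h => (b u k).2.2 (by rw [h]; rfl)⟩
    exact ⟨s, by simp, t, by simp, a, this s (by simp), this t (by simp)⟩

theorem mem_nV {n : ℕ} {f : (Fin n → ℕ → Bool) ≃ₜ (Fin n → ℕ → Bool)}
    (h : ∀ x, ∃ a b : Fin n → ℕ, ∀ᶠ y in 𝓝 x, ∀ k i, f y k (b k + i) = y k (a k + i)) : f ∈ nV n := by
  refine Subgroup.subset_closure fun x => ?_
  obtain ⟨a, b, h⟩ := h x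
  have e : ∀ᶠ y in 𝓝 x, ∀ k, ∀ i ∈ Finset.range (b k), f y k i = f x k i := eventually_all.2 fun k => (eventually_all_finset _).2 fun i _ =>
    ((by fun_prop : Continuous fun y => f y k i).tendsto x).eventually (p := (· = f x k i)) (by simp)
  have t : ⨅ N : ℕ, 𝓟 {y : Fin n → ℕ → Bool | ∀ k, ∀ i < N, y k i = x k i} ≤ 𝓝 x := tendsto_id'.1 (tendsto_pi_nhds.2 fun k =>
    tendsto_pi_nhds.2 fun i => tendsto_const_nhds.congr' (mem_iInf_of_mem (i + 1) fun y h => (h k i (lt_add_one i)).symm))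
  obtain ⟨N, m⟩ := (mem_iInf_of_directed (Antitone.directed_ge fun M N c => principal_mono.2 fun (y : Fin n → ℕ → Bool) (h : ∀ k, ∀ i < N, y k i = x k i) k i d => h k i (d.trans_le c)) _).1 (t (h.and e))
  refine ⟨fun k => a k + N, fun k => b k + N, f x, fun y c k => ?_⟩
  dsimp only at c ⊢
  have := m (show y ∈ _ from fun k i d => c k i (by omega))
  refine ⟨fun i d => ?_, fun i => by rw [add_assoc, add_assoc, this.1]⟩
  by_cases g : i < b k
  · exact this.2 k i (Finset.mem_range.2 g)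
  · obtain ⟨i, rfl⟩ := Nat.exists_eq_add_of_le (not_lt.1 g)
    rw [this.1, h.self_of_nhds, c _ _ (by omega)]

noncomputable def eq : Col ≃ (Fin 20 → Bool) := Fintype.equivOfCardEq (by simp)

noncomputable def enc : (ℕ → Col) ≃ (ℕ → Bool) where
  toFun x n := eq (x (n / 20)) ⟨n % 20, Nat.mod_lt _ (by omega)⟩
  invFun y i := eq.symm fun k => y (20 * i + k)
  left_inv x := funext fun i => eq.symm_apply_eq.2 (funext fun k => by
    simp [Nat.mul_add_div, Nat.div_eq_of_lt k.2, Nat.mod_eq_of_lt k.2])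
  right_inv y := funext fun n => by simp [Nat.div_add_mod]

theorem enc_tl {x y : ℕ → Col} {a b : ℕ} (h : ∀ i, x (b + i) = y (a + i)) (i : ℕ) : enc x (20 * b + i) = enc y (20 * a + i) := by
  simp [enc, Nat.mul_add_div, h]

noncomputable def Φ (n : ℕ) : Y × (Fin n → ℕ → Bool) ≃ₜ (Fin (n + 2) → ℕ → Bool) := Continuous.homeoOfEquivCompactToT2 (f :=
  { toFun := fun y => Fin.cons (fun n => Nat.casesOn n y.1.1 (enc fun i => y.1.2 (-i))) (Fin.cons (enc fun i => y.1.2 (i + 1)) y.2)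
    invFun := fun x => ((x 0 0, fun i => if 0 < i then enc.symm (x 1) (i - 1).toNat else enc.symm (fun n => x 0 (n + 1)) (-i).toNat),
      fun k => x k.succ.succ)
    left_inv := fun y => Prod.ext (Prod.ext rfl (funext fun i => by
      by_cases h : 0 < i
      · simp [h]
      · simp [h, show -max (-i) 0 = i by omega])) rfl
    right_inv := fun x => funext fun k => by
      rcases k with ⟨_ | _ | k, h⟩
      · funext n
        cases n <;> simp [show ∀ i : ℕ, ¬ (i : ℤ) < 0 from fun i => by omega]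
      · simp [show ∀ i : ℕ, 0 < (i : ℤ) + 1 from fun i => by omega]
      · rfl }) (by
  have c : Continuous enc := continuous_pi fun n => (continuous_of_discreteTopology (f := fun c => eq c ⟨n % 20, Nat.mod_lt _ (by omega)⟩)).comp (continuous_apply _)
  refine continuous_pi fun k => ?_
  rcases k with ⟨_ | _ | k, h⟩
  · refine continuous_pi fun m => ?_
    rcases m with _ | m
    · exact continuous_fst.fst
    · exact (continuous_apply m).comp (c.comp (by fun_prop : Continuous fun (y : Y × (Fin n → ℕ → Bool)) (i : ℕ) => y.1.2 (-i)))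
  · exact c.comp (by fun_prop : Continuous fun (y : Y × (Fin n → ℕ → Bool)) (i : ℕ) => y.1.2 (i + 1))
  · exact (continuous_apply (⟨k, by omega⟩ : Fin n)).comp continuous_snd)

theorem not_nV (n : ℕ) (h : 2 ≤ n) : ¬ DynTits (nV n) := by
  obtain ⟨n, rfl⟩ := Nat.exists_eq_add_of_le' h
  refine (bad.lift (fun s => (Φ n).symm.trans (((j s).prodCongr (.refl _)).trans (Φ n))) (fun s => rfl) (fun y => Φ n (y, default))
    (fun x => ((Φ n).symm x).1) (by fun_prop) (by fun_prop) (fun s y => by simp) fun s y => by simp).not fun s => mem_nV fun x => ?_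
  obtain ⟨x, rfl⟩ := (Φ n).surjective x
  obtain ⟨a, b, a', b', e⟩ := j_loc s x.1
  refine ⟨Fin.cons (20 * a' + 1) (Fin.cons (20 * a) 0), Fin.cons (20 * b' + 1) (Fin.cons (20 * b) 0), ?_⟩
  rw [← (Φ n).map_nhds_eq, eventually_map]
  filter_upwards [continuous_fst.continuousAt.eventually e] with y e k i
  simp only [Homeomorph.trans_apply, Homeomorph.symm_apply_apply]
  rcases k with ⟨_ | _ | k, h⟩
  · exact (add_right_comm (20 * b') 1 i).symm ▸ (add_right_comm (20 * a') 1 i).symm ▸ enc_tl (x := fun i => (j s y.1).2 (-i)) (y := fun i => y.1.2 (-i)) (fun i => (e i).2) i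
  · exact enc_tl (x := fun i => (j s y.1).2 (i + 1)) (y := fun i => y.1.2 (i + 1)) (fun i => (e i).1) i
  · rfl

end Pool.Agent.H.MP_e5892f_al.Two
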